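import Pool.Agent.Helper98.LC.B.Area

/-!
# LC-B17: the partition into components

`r x y := Relation.ReflTransGen (Adj1 l) x y` is an equivalence relation on `V` (`Adj1 l` is symmetric: `dir_add3`).
`ι` = the quotient, `c` = the projection, `g` = the induced map (labels are constant along `Adj1 l` paths).
* The complement of `box n` is connected in the grid and has label `o`, so all its vertices are equivalent: `o'` := their class.
  (Take the point `(n+1, n+1)` as base point: from `(a, b)` with, say, `a > n`: move vertically to height `n + 1`, then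
  horizontally to `n+1` at height `n+1`; for `b > n`: horizontally; for `a < -n`: vertically to height `n + 1`, then horizontally; for
  `b < -n`: horizontally to `n + 1`, then vertically.)
* `ι` is finite: every class other than `o'` has a representative in `box n`.
* `Conn c`: `c x = c y` means `r x y`; a path of `Adj1 l` is a path of `Adj1 c` (neighbours with equal labels are equivalent).
* `darts c n = darts l n` (same box, `c x ≠ c (x + dir k) ↔ l x ≠ l (x + dir k)`: if the labels of neighbours are equal they are
  equivalent; if the labels are different they are not).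
* areas: for a label `j ≠ o` the vertices with label `j` are the disjoint union of the classes `i` with `g i = j`.
-/

namespace Pool.Agent.Helper98.LC

open Finset

private theorem cp_symm {κ : Type} (l : V → κ) {x y : V}
    (h : Relation.ReflTransGen (Adj1 l) x y) : Relation.ReflTransGen (Adj1 l) y x := by
  induction h with
  | refl => exact Relation.ReflTransGen.refl
  | @tail b c _ h2 ih =>
    obtain ⟨h1, k, hk⟩ := h2
    refine Relation.ReflTransGen.head ⟨h1.symm, k + 3, ?_⟩ ih
    rw [hk, dir_add3, add_assoc, add_neg_cancel, add_zero]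

private theorem cp_mem_box {n : ℕ} {x : V} :
    x ∈ box n ↔ (-(n : ℤ) ≤ x.1 ∧ x.1 ≤ n) ∧ (-(n : ℤ) ≤ x.2 ∧ x.2 ≤ n) := by
  unfold box
  rw [mem_product, mem_Icc, mem_Icc]

private theorem cp_hor {κ : Type} {l : V → κ} {o : κ} {n : ℕ} (h : OutBox l o n) {b : ℤ}
    (hb : b < -(n : ℤ) ∨ (n : ℤ) < b) (a a' : ℤ) :
    Relation.ReflTransGen (Adj1 l) (a, b) (a', b) := by
  have hout : ∀ t : ℤ, l (t, b) = o := by
    intro t
    refine h _ fun hm => ?_
    rw [cp_mem_box] at hm
    have := hm.2
    simp only at this
    omega
  have key : ∀ a a' : ℤ, a ≤ a' → Relation.ReflTransGen (Adj1 l) (a, b) (a', b) := by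
    intro a a' haa
    induction a', haa using Int.leInduction with
    | base => exact Relation.ReflTransGen.refl
    | succ m hm ih =>
      refine ih.tail ⟨(hout m).trans (hout (m + 1)).symm, 0, ?_⟩
      simp [dir]
  rcases le_total a a' with h1 | h1
  · exact key a a' h1
  · exact cp_symm l (key a' a h1)

private theorem cp_ver {κ : Type} {l : V → κ} {o : κ} {n : ℕ} (h : OutBox l o n) {a : ℤ}
    (ha : a < -(n : ℤ) ∨ (n : ℤ) < a) (b b' : ℤ) :
    Relation.ReflTransGen (Adj1 l) (a, b) (a, b') := by
  have hout : ∀ t : ℤ, l (a, t) = o := by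
    intro t
    refine h _ fun hm => ?_
    rw [cp_mem_box] at hm
    have := hm.1
    simp only at this
    omega
  have key : ∀ b b' : ℤ, b ≤ b' → Relation.ReflTransGen (Adj1 l) (a, b) (a, b') := by
    intro b b' hbb
    induction b', hbb using Int.leInduction with
    | base => exact Relation.ReflTransGen.refl
    | succ m hm ih =>
      refine ih.tail ⟨(hout m).trans (hout (m + 1)).symm, 2, ?_⟩
      simp [dir]
  rcases le_total b b' with h1 | h1
  · exact key b b' h1
  · exact cp_symm l (key b' b h1)

private theorem cp_out {κ : Type} {l : V → κ} {o : κ} {n : ℕ} (h : OutBox l o n) (x : V)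
    (hx : x ∉ box n) : Relation.ReflTransGen (Adj1 l) x ((n : ℤ) + 1, (n : ℤ) + 1) := by
  obtain ⟨a, b⟩ := x
  rw [cp_mem_box] at hx
  simp only at hx
  by_cases ha : a < -(n : ℤ) ∨ (n : ℤ) < a
  · exact (cp_ver h ha b ((n : ℤ) + 1)).trans (cp_hor h (Or.inr (by omega)) a ((n : ℤ) + 1))
  · have hb : b < -(n : ℤ) ∨ (n : ℤ) < b := by omega
    exact (cp_hor h hb a ((n : ℤ) + 1)).trans (cp_ver h (Or.inr (by omega)) b ((n : ℤ) + 1))

private theorem cp_label {κ : Type} (l : V → κ) {x y : V}
    (h : Relation.ReflTransGen (Adj1 l) x y) : l x = l y := by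
  induction h with
  | refl => rfl
  | tail _ h2 ih => exact ih.trans h2.1

/-- the equivalence relation of being in the same component -/
private def cpSetoid {κ : Type} (l : V → κ) : Setoid V where
  r := Relation.ReflTransGen (Adj1 l)
  iseqv := ⟨fun _ => Relation.ReflTransGen.refl, fun h => cp_symm l h, fun h1 h2 => h1.trans h2⟩

theorem exists_comp {κ : Type} [DecidableEq κ] (G : Net) (l : V → κ) (o : κ) (n : ℕ)
    (h : OutBox l o n) :
    ∃ (ι : Type) (_ : Fintype ι) (_ : DecidableEq ι) (c : V → ι) (o' : ι) (g : ι → κ),
      OutBox c o' n ∧ Conn c ∧ (∀ x, g (c x) = l x) ∧ Function.Surjective c ∧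
      per2 G c n = per2 G l n ∧
      ∀ j, j ≠ o → ar G l n j = ∑ i ∈ univ.filter (fun i => g i = j), ar G c n i := by
  classical
  have hout : OutBox (fun x => Quotient.mk (cpSetoid l) x)
      (Quotient.mk (cpSetoid l) ((n : ℤ) + 1, (n : ℤ) + 1)) n :=
    fun x hx => Quotient.sound (cp_out h x hx)
  have hfin : Finite (Quotient (cpSetoid l)) := by
    refine Finite.of_surjective (fun t : Option {x // x ∈ box n} => match t with
      | none => Quotient.mk (cpSetoid l) ((n : ℤ) + 1, (n : ℤ) + 1)
      | some x => Quotient.mk (cpSetoid l) x.1) ?_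
    intro q
    obtain ⟨x, rfl⟩ := Quotient.exists_rep q
    by_cases hx : x ∈ box n
    · exact ⟨some ⟨x, hx⟩, rfl⟩
    · exact ⟨none, (hout x hx).symm⟩
  let _ : Fintype (Quotient (cpSetoid l)) := Fintype.ofFinite _
  have hg : ∀ x y : V, (Quotient.mk (cpSetoid l) x) = (Quotient.mk (cpSetoid l) y) ↔
      Relation.ReflTransGen (Adj1 l) x y := fun x y => Quotient.eq
  refine ⟨Quotient (cpSetoid l), inferInstance, inferInstance,
    fun x => Quotient.mk (cpSetoid l) x,
    Quotient.mk (cpSetoid l) ((n : ℤ) + 1, (n : ℤ) + 1),
    Quotient.lift l (fun x y hxy => cp_label l hxy), hout, ?_, fun x => rfl, ?_, ?_, ?_⟩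
  · intro x y hxy
    have h1 := (hg x y).1 hxy
    refine Relation.ReflTransGen.mono (fun a b hab => ?_) _ _ h1
    exact ⟨(hg a b).2 (Relation.ReflTransGen.single hab), hab.2⟩
  · intro q
    exact Quotient.exists_rep q
  · unfold per2
    refine sum_congr ?_ fun _ _ => rfl
    unfold darts
    refine filter_congr fun d _ => not_congr ?_
    rw [hg]
    constructor
    · exact fun h1 => cp_label l h1
    · exact fun h1 => Relation.ReflTransGen.single ⟨h1, d.2, rfl⟩
  · intro j _
    unfold ar
    rw [← sum_div]
    congr 1
    rw [← sum_fiberwise_of_maps_to (s := (box n).filter (fun x => l x = j))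
      (t := univ.filter (fun i => Quotient.lift l (fun x y hxy => cp_label l hxy) i = j))
      (g := fun x => Quotient.mk (cpSetoid l) x) ?_]
    · refine sum_congr rfl fun i hi => ?_
      rw [mem_filter] at hi
      rw [filter_filter]
      refine sum_congr (filter_congr fun x _ => ?_) fun _ _ => rfl
      constructor
      · exact fun hx => hx.2
      · intro hx
        refine ⟨?_, hx⟩
        rw [← hi.2, ← hx]
        rfl
    · intro x hx
      rw [mem_filter] at hx ⊢
      exact ⟨mem_univ _, hx.2⟩

end Pool.Agent.Helper98.LC
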