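import Pool.Agent.Helper98.LC.B.Dart

/-!
# LC-B02: areas and lengths as sums over cut darts

`darts c n` is the set of cut darts (if `OutBox c o n`): a cut dart has one of its ends in
`box n`, and `box (n + 1)` contains all neighbours of `box n`.

* `sum_et_class`: `∑ x in class i, al x = ∑ x in class i, ∑ k, (cr (z x (k-1)) (q x k) + cr (q x k) (z x k)) / 2`
  (shift the index of the second summand of `al`: `∑ k, cr (z x k) (q x (k+1)) = ∑ k, cr (z x (k-1)) (q x k)`,
  `Fin 6` is a group, `Equiv.addRight`), which is `∑ over darts d with d.1 in the class, et d`.  The darts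
  with both ends in the class cancel in pairs: `rev` is an involution of this set and `et (rev d) = - et d`
  (`Finset.sum_involution` or: the sum equals its negative, `Finset.sum_bij`).
* `sum_et_all`: `rev` is an involution of `darts c n`, `et_rev`.
* `sum_et_outer`: all minus the classes `i ≠ o` (here `ι` is finite).
* `per2_eq`: split the sum according to the class of the starting vertex; `cut_symm`: by `rev`, `w_rev`.
-/

namespace Pool.Agent.Helper98.LC

open Finset

variable {ι : Type} [DecidableEq ι]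

/-- membership in a box -/
private lemma area_mem_box {n : ℕ} {x : V} :
    x ∈ box n ↔ (-(n : ℤ) ≤ x.1 ∧ x.1 ≤ n) ∧ (-(n : ℤ) ≤ x.2 ∧ x.2 ≤ n) := by
  unfold box
  rw [mem_product, mem_Icc, mem_Icc]

private lemma area_box_succ {n : ℕ} {x : V} (h : x ∈ box n) : x ∈ box (n + 1) := by
  rw [area_mem_box] at h ⊢
  push_cast
  omega

private lemma area_box_nbr {n : ℕ} {x : V} {k : Fin 6} (h : x + dir k ∈ box n) :
    x ∈ box (n + 1) := by
  rw [area_mem_box] at h ⊢
  have h1 : -1 ≤ (dir k).1 ∧ (dir k).1 ≤ 1 ∧ -1 ≤ (dir k).2 ∧ (dir k).2 ≤ 1 := by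
    fin_cases k <;> simp [dir]
  rw [Prod.fst_add, Prod.snd_add] at h
  push_cast
  omega

theorem mem_darts {c : V → ι} {o : ι} {n : ℕ} (h : OutBox c o n) (d : V × Fin 6) :
    d ∈ darts c n ↔ IsCut c d := by
  unfold darts IsCut
  rw [mem_filter, mem_product]
  constructor
  · exact fun hd => hd.2
  · intro hd
    refine ⟨⟨?_, mem_univ _⟩, hd⟩
    by_cases h1 : d.1 ∈ box n
    · exact area_box_succ h1
    · by_cases h2 : tip d ∈ box n
      · exact area_box_nbr h2
      · exact absurd ((h _ h1).trans (h _ h2).symm) hd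

private lemma area_al (G : Net) (x : V) : G.al x = ∑ k, G.et (x, k) := by
  unfold Net.al Net.et
  have h1 : ∑ k : Fin 6, cr (G.z x k) (G.q x (k + 1)) = ∑ k : Fin 6, cr (G.z x (k - 1)) (G.q x k) := by
    rw [← Equiv.sum_comp (Equiv.addRight (1 : Fin 6)) (fun k => cr (G.z x (k - 1)) (G.q x k))]
    refine sum_congr rfl fun k _ => ?_
    rw [Equiv.coe_addRight, add_sub_cancel_right]
  rw [← sum_div, ← sum_div, sum_add_distrib, sum_add_distrib, h1]
  simp only
  ring

private lemma area_rev_ne (G : Net) (d : V × Fin 6) (h : G.et d ≠ 0) : rev d ≠ d := by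
  intro e
  apply h
  have h1 := et_rev G d
  rw [e] at h1
  linarith

theorem sum_et_class (G : Net) {c : V → ι} {o : ι} {n : ℕ} (h : OutBox c o n) {i : ι} (hi : i ≠ o) :
    ∑ d ∈ (darts c n).filter (fun d => c d.1 = i), G.et d =
      ∑ x ∈ (box n).filter (fun x => c x = i), G.al x := by
  have h1 : ∑ x ∈ (box n).filter (fun x => c x = i), G.al x =
      ∑ d ∈ ((box n).filter (fun x => c x = i)) ×ˢ (univ : Finset (Fin 6)), G.et d := by
    rw [sum_product]
    exact sum_congr rfl fun x _ => area_al G x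
  have hin : ∀ x : V, c x = i → x ∈ box n := by
    intro x hx
    by_contra hb
    exact hi (hx.symm.trans (h x hb))
  rw [h1, ← sum_filter_add_sum_filter_not
    (((box n).filter (fun x => c x = i)) ×ˢ (univ : Finset (Fin 6))) (fun d => IsCut c d)]
  have h2 : ∑ d ∈ ((((box n).filter (fun x => c x = i)) ×ˢ (univ : Finset (Fin 6))).filter
      fun d => ¬ IsCut c d), G.et d = 0 := by
    refine sum_involution (fun d _ => rev d) ?_ ?_ ?_ ?_
    · intro d _
      rw [et_rev]
      ring
    · intro d _ hd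
      exact area_rev_ne G d hd
    · intro d hd
      rw [mem_filter, mem_product, mem_filter] at hd ⊢
      have h3 : c d.1 = c (tip d) := by
        by_contra hc
        exact hd.2 hc
      have h4 : c (tip d) = i := h3.symm.trans hd.1.1.2
      refine ⟨⟨⟨hin _ h4, h4⟩, mem_univ _⟩, ?_⟩
      rw [isCut_rev]
      exact hd.2
    · intro d _
      exact rev_rev d
  rw [h2, add_zero]
  refine sum_congr ?_ fun _ _ => rfl
  ext d
  rw [mem_filter, mem_filter, mem_product, mem_filter, mem_darts h]
  constructor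
  · intro hd
    exact ⟨⟨⟨hin _ hd.2, hd.2⟩, mem_univ _⟩, hd.1⟩
  · intro hd
    exact ⟨hd.2, hd.1.1.2⟩

theorem sum_et_all (G : Net) {c : V → ι} {o : ι} {n : ℕ} (h : OutBox c o n) :
    ∑ d ∈ darts c n, G.et d = 0 := by
  refine sum_involution (fun d _ => rev d) ?_ ?_ ?_ ?_
  · intro d _
    rw [et_rev]
    ring
  · intro d _ hd
    exact area_rev_ne G d hd
  · intro d hd
    rw [mem_darts h] at hd ⊢
    rw [isCut_rev]
    exact hd
  · intro d _
    exact rev_rev d

private lemma area_A0 : 0 < A0 := by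
  unfold A0
  positivity

theorem sum_et_outer [Fintype ι] (G : Net) {c : V → ι} {o : ι} {n : ℕ} (h : OutBox c o n) :
    ∑ d ∈ (darts c n).filter (fun d => c d.1 = o), G.et d =
      - (A0 * ∑ i ∈ univ.filter (fun i => i ≠ o), ar G c n i) := by
  have h1 := sum_et_all G h
  rw [← sum_fiberwise (darts c n) (fun d => c d.1) (fun d => G.et d),
    ← sum_filter_add_sum_filter_not univ (fun i => i ≠ o)] at h1
  have h2 : ∑ i ∈ univ.filter (fun i => ¬ i ≠ o), ∑ d ∈ (darts c n).filter (fun d => c d.1 = i),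
      G.et d = ∑ d ∈ (darts c n).filter (fun d => c d.1 = o), G.et d := by
    have h3 : univ.filter (fun i : ι => ¬ i ≠ o) = {o} := by
      ext i
      simp
    rw [h3, sum_singleton]
  have h4 : ∑ i ∈ univ.filter (fun i => i ≠ o), ∑ d ∈ (darts c n).filter (fun d => c d.1 = i),
      G.et d = A0 * ∑ i ∈ univ.filter (fun i => i ≠ o), ar G c n i := by
    rw [mul_sum]
    refine sum_congr rfl fun i hi => ?_
    rw [mem_filter] at hi
    rw [sum_et_class G h hi.2]
    unfold ar
    rw [mul_div_cancel₀ _ area_A0.ne']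
  rw [h2, h4] at h1
  linarith

theorem per2_eq [Fintype ι] (G : Net) (c : V → ι) (n : ℕ) :
    per2 G c n = ∑ i, ∑ j, cut G c n i j := by
  unfold per2 cut
  rw [← sum_fiberwise (darts c n) (fun d => c d.1) (fun d => G.w d)]
  refine sum_congr rfl fun i _ => ?_
  rw [← sum_fiberwise ((darts c n).filter (fun d => c d.1 = i)) (fun d => c (tip d))
    (fun d => G.w d)]
  refine sum_congr rfl fun j _ => ?_
  rw [filter_filter]

theorem cut_symm (G : Net) {c : V → ι} {o : ι} {n : ℕ} (h : OutBox c o n) (i j : ι) :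
    cut G c n i j = cut G c n j i := by
  unfold cut
  refine sum_nbij' rev rev ?_ ?_ ?_ ?_ ?_
  · intro d hd
    rw [mem_filter, mem_darts h] at hd ⊢
    exact ⟨(isCut_rev c d).2 hd.1, hd.2.2, by rw [tip_rev]; exact hd.2.1⟩
  · intro d hd
    rw [mem_filter, mem_darts h] at hd ⊢
    exact ⟨(isCut_rev c d).2 hd.1, hd.2.2, by rw [tip_rev]; exact hd.2.1⟩
  · intro d _
    exact rev_rev d
  · intro d _
    exact rev_rev d
  · intro d _
    exact (w_rev G d).symm

theorem cut_self (G : Net) (c : V → ι) (n : ℕ) (i : ι) : cut G c n i i = 0 := by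
  unfold cut
  rw [sum_eq_zero]
  intro d hd
  unfold darts at hd
  rw [mem_filter, mem_filter] at hd
  exact absurd (hd.2.1.trans hd.2.2.symm) hd.1.2

theorem cut_nonneg (G : Net) (c : V → ι) (n : ℕ) (i j : ι) : 0 ≤ cut G c n i j :=
  sum_nonneg fun d _ => w_nonneg G d

theorem ar_nonneg (G : Net) (c : V → ι) (n : ℕ) (i : ι) : 0 ≤ ar G c n i :=
  div_nonneg (sum_nonneg fun x _ => G.area_nonneg x) area_A0.le

end Pool.Agent.Helper98.LC
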