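import Pool.Agent.Helper98.LC.B.Area
import Pool.Agent.Helper98.LC.G.Iface

/-!
# LC-B15: isoperimetric inequality for sets of dual cells

Let `c' : V → Bool`, `c' x = decide (x ∈ S)` (a labelling with `OutBox c' false n`), `D'` = the darts `d` with `d.1 ∈ S`,
`tip d ∉ S`.  By `sum_et_class` with `i = true`: `∑ x ∈ S, al x = ∑ d ∈ D', et d`.
Index set `D = D' × Bool`, permutation `s (d, false) = (d, true)`, `s (d, true) = (next c' d, false)` (`next c'` is a permutation of `D'`:
`isCut_next`, `class_next`, `prev_next`, `next_prev`), points `z (d, false) = z d.1 (d.2 - 1)`, `z (d, true) = q d.1 d.2`; so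
`z (s (d, true)) = z (next c' d).1 ((next c' d).2 - 1) = zl d` (`zr_next`).  Then
`∑ cr (z e) (z (s e)) / 2 = ∑ d ∈ D', et d` and `∑ ‖z (s e) - z e‖ = ∑ d ∈ D', w d`: `iso_perm`.
-/

namespace Pool.Agent.Helper98.LC

open Finset Real

private theorem iso_mem {S : Finset V} {d : V × Fin 6} :
    d ∈ (S ×ˢ (univ : Finset (Fin 6))).filter (fun d => tip d ∉ S) ↔ d.1 ∈ S ∧ tip d ∉ S := by
  rw [mem_filter, mem_product]
  exact ⟨fun h => ⟨h.1.1, h.2⟩, fun h => ⟨⟨h.1, mem_univ _⟩, h.2⟩⟩

private theorem iso_cut {S : Finset V} {d : V × Fin 6}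
    (h : d ∈ (S ×ˢ (univ : Finset (Fin 6))).filter (fun d => tip d ∉ S)) :
    IsCut (fun x => decide (x ∈ S)) d := by
  rw [iso_mem] at h
  unfold IsCut
  simp [h.1, h.2]

private theorem iso_of_cut {S : Finset V} {d : V × Fin 6}
    (h : IsCut (fun x => decide (x ∈ S)) d) (h1 : (fun x => decide (x ∈ S)) d.1 = true) :
    d ∈ (S ×ˢ (univ : Finset (Fin 6))).filter (fun d => tip d ∉ S) := by
  rw [iso_mem]
  have h2 : d.1 ∈ S := by simpa using h1
  refine ⟨h2, fun h3 => h ?_⟩
  simp [h2, h3]

private theorem iso_next {S : Finset V} {d : V × Fin 6}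
    (h : d ∈ (S ×ˢ (univ : Finset (Fin 6))).filter (fun d => tip d ∉ S)) :
    next (fun x => decide (x ∈ S)) d ∈
      (S ×ˢ (univ : Finset (Fin 6))).filter (fun d => tip d ∉ S) := by
  refine iso_of_cut (isCut_next _ (iso_cut h)) ?_
  refine (class_next (fun x => decide (x ∈ S)) d).trans ?_
  simpa using (iso_mem.1 h).1

private theorem iso_prev {S : Finset V} {d : V × Fin 6}
    (h : d ∈ (S ×ˢ (univ : Finset (Fin 6))).filter (fun d => tip d ∉ S)) :
    prev (fun x => decide (x ∈ S)) d ∈
      (S ×ˢ (univ : Finset (Fin 6))).filter (fun d => tip d ∉ S) := by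
  refine iso_of_cut (isCut_prev _ (iso_cut h)) ?_
  refine (class_prev (fun x => decide (x ∈ S)) d).trans ?_
  simpa using (iso_mem.1 h).1

/-- The system of closed polygons around the set `S`. -/
private def isoPerm (S : Finset V) :
    Equiv.Perm ({d // d ∈ (S ×ˢ (univ : Finset (Fin 6))).filter (fun d => tip d ∉ S)} × Bool) where
  toFun e := match e with
    | (d, false) => (d, true)
    | (d, true) => (⟨next (fun x => decide (x ∈ S)) d.1, iso_next d.2⟩, false)
  invFun e := match e with
    | (d, true) => (d, false)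
    | (d, false) => (⟨prev (fun x => decide (x ∈ S)) d.1, iso_prev d.2⟩, true)
  left_inv e := by
    rcases e with ⟨d, b⟩
    cases b
    · rfl
    · simp only [prev_next _ (iso_cut d.2)]
  right_inv e := by
    rcases e with ⟨d, b⟩
    cases b
    · simp only [next_prev _ (iso_cut d.2)]
    · rfl

/-- The vertices of the polygons around `S`. -/
private noncomputable def isoPt (G : Net) (S : Finset V) :
    ({d // d ∈ (S ×ˢ (univ : Finset (Fin 6))).filter (fun d => tip d ∉ S)} × Bool) → ℂ := fun e =>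
  if e.2 = true then G.q e.1.1.1 e.1.1.2 else G.z e.1.1.1 (e.1.1.2 - 1)

theorem iso_set (G : Net) (S : Finset V) (n : ℕ) (hS : S ⊆ box n) :
    4 * π * ∑ x ∈ S, G.al x ≤
      (∑ d ∈ (S ×ˢ (univ : Finset (Fin 6))).filter (fun d => tip d ∉ S), G.w d) ^ 2 := by
  have hout : OutBox (fun x => decide (x ∈ S)) false n := by
    intro x hx
    have h1 : x ∉ S := fun h => hx (hS h)
    simp [h1]
  have harea : ∑ x ∈ S, G.al x =
      ∑ d ∈ (S ×ˢ (univ : Finset (Fin 6))).filter (fun d => tip d ∉ S), G.et d := by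
    have h1 := sum_et_class G hout (i := true) (by decide)
    have h2 : (box n).filter (fun x => (fun x => decide (x ∈ S)) x = true) = S := by
      ext x
      rw [mem_filter]
      constructor
      · intro h
        simpa using h.2
      · intro h
        exact ⟨hS h, by simpa using h⟩
    have h3 : (darts (fun x => decide (x ∈ S)) n).filter
        (fun d => (fun x => decide (x ∈ S)) d.1 = true) =
        (S ×ˢ (univ : Finset (Fin 6))).filter (fun d => tip d ∉ S) := by
      ext d
      rw [mem_filter, mem_darts hout]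
      constructor
      · intro h
        exact iso_of_cut h.1 h.2
      · intro h
        exact ⟨iso_cut h, by simpa using (iso_mem.1 h).1⟩
    rw [h2, h3] at h1
    exact h1.symm
  have hmain := iso_perm (isoPerm S) (isoPt G S)
  have hzn : ∀ d : {d // d ∈ (S ×ˢ (univ : Finset (Fin 6))).filter (fun d => tip d ∉ S)},
      isoPt G S (isoPerm S (d, true)) = G.z d.1.1 d.1.2 := by
    intro d
    have h1 := zr_next G (fun x => decide (x ∈ S)) d.1
    exact h1
  have hz0 : ∀ d : {d // d ∈ (S ×ˢ (univ : Finset (Fin 6))).filter (fun d => tip d ∉ S)},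
      isoPt G S (isoPerm S (d, false)) = G.q d.1.1 d.1.2 := by
    intro d
    rfl
  have hs : ∀ f : V × Fin 6 → ℝ,
      ∑ d ∈ (S ×ˢ (univ : Finset (Fin 6))).filter (fun d => tip d ∉ S), f d =
      ∑ d : {d // d ∈ (S ×ˢ (univ : Finset (Fin 6))).filter (fun d => tip d ∉ S)}, f d.1 :=
    fun f => (sum_coe_sort _ f).symm
  have h1 : (∑ e, cr (isoPt G S e) (isoPt G S (isoPerm S e))) / 2 =
      ∑ d ∈ (S ×ˢ (univ : Finset (Fin 6))).filter (fun d => tip d ∉ S), G.et d := by
    rw [hs, Fintype.sum_prod_type, sum_div]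
    refine sum_congr rfl fun d _ => ?_
    rw [Fintype.sum_bool, hzn, hz0]
    unfold Net.et isoPt
    simp only [if_true, if_false, Bool.false_eq_true]
    ring
  have h2 : (∑ e, ‖isoPt G S (isoPerm S e) - isoPt G S e‖) =
      ∑ d ∈ (S ×ˢ (univ : Finset (Fin 6))).filter (fun d => tip d ∉ S), G.w d := by
    rw [hs, Fintype.sum_prod_type]
    refine sum_congr rfl fun d _ => ?_
    rw [Fintype.sum_bool, hzn, hz0]
    unfold Net.w isoPt
    simp only [if_true, if_false, Bool.false_eq_true]
    ring
  rw [h1, h2] at hmain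
  rw [harea]
  exact hmain

end Pool.Agent.Helper98.LC
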