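import Pool.Agent.Helper98.LC.B.LoopSet
import Pool.Agent.Helper98.LC.B.IsoSet

/-!
# LC-B16: a loop makes a long cut; perimeter of a class

* `loop_cut`: take `S, W, W'` from `loop_set`.  `A0 * ar W = ∑ x in class W, al x ≤ ∑ x ∈ S, al x` (`al ≥ 0`, `area_nonneg`), and the
  darts leaving `S` are darts from `W` to `W'`, so their total length is at most `cut W W'` (`w_nonneg`,
  `mem_darts`).  `iso_set`.
* `iso_class`: `iso_set` for `S` = the class `i ≠ o` (contained in `box n`); the darts leaving `S` are the cut darts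
  starting in the class: `∑ j, cut i j`.
-/

namespace Pool.Agent.Helper98.LC

open Finset Real

variable {ι : Type} [DecidableEq ι]

private theorem lc_A0_pos : 0 < A0 := by
  unfold A0
  positivity

private theorem lc_iso (G : Net) (c : V → ι) {n : ℕ} {S : Finset V} (hS : S ⊆ box n) {W : ι}
    (hW : ∀ x ∈ box n, c x = W → x ∈ S) {D : Finset (V × Fin 6)}
    (hD : ∀ x k, x ∈ S → x + dir k ∉ S → (x, k) ∈ D) :
    4 * π * (A0 * ar G c n W) ≤ (∑ d ∈ D, G.w d) ^ 2 := by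
  have h1 := iso_set G S n hS
  have h2 : A0 * ar G c n W ≤ ∑ x ∈ S, G.al x := by
    unfold ar
    rw [mul_div_cancel₀ _ lc_A0_pos.ne']
    refine sum_le_sum_of_subset_of_nonneg (fun x hx => ?_) fun x _ _ => G.area_nonneg x
    rw [mem_filter] at hx
    exact hW x hx.1 hx.2
  have h3 : ∑ d ∈ (S ×ˢ (univ : Finset (Fin 6))).filter (fun d => tip d ∉ S), G.w d ≤
      ∑ d ∈ D, G.w d := by
    refine sum_le_sum_of_subset_of_nonneg (fun d hd => ?_) fun d _ _ => w_nonneg G d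
    rw [mem_filter, mem_product] at hd
    exact hD d.1 d.2 hd.1.1 hd.2
  have h4 : 0 ≤ ∑ d ∈ (S ×ˢ (univ : Finset (Fin 6))).filter (fun d => tip d ∉ S), G.w d :=
    sum_nonneg fun d _ => w_nonneg G d
  calc 4 * π * (A0 * ar G c n W) ≤ 4 * π * ∑ x ∈ S, G.al x :=
        mul_le_mul_of_nonneg_left h2 (by positivity)
    _ ≤ _ := h1
    _ ≤ _ := pow_le_pow_left₀ h4 h3 2

theorem loop_cut (G : Net) {c : V → ι} {o : ι} {n : ℕ} (h : OutBox c o n) (hc : Conn c)
    (hl : ¬ NoLoop c) :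
    ∃ W W' : ι, W ≠ o ∧ W ≠ W' ∧ (∃ d, IsCut c d ∧ c d.1 = W ∧ c (tip d) = W') ∧
      4 * π * (A0 * ar G c n W) ≤ (cut G c n W W') ^ 2 := by
  obtain ⟨S, W, W', hWo, hWW', hS, hWS, hout, hd⟩ := loop_set h hc hl
  refine ⟨W, W', hWo, hWW', hd, ?_⟩
  unfold cut
  refine lc_iso G c hS (fun x _ hx => hWS x hx) fun x k hx hk => ?_
  obtain ⟨h1, h2⟩ := hout x k hx hk
  rw [mem_filter, mem_darts h]
  refine ⟨?_, h1, h2⟩
  change c x ≠ c (x + dir k)
  rw [h1, h2]
  exact hWW'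

theorem iso_class [Fintype ι] (G : Net) {c : V → ι} {o : ι} {n : ℕ} (h : OutBox c o n) {i : ι}
    (hi : i ≠ o) : 4 * π * (A0 * ar G c n i) ≤ (∑ j, cut G c n i j) ^ 2 := by
  have h1 : ∑ j, cut G c n i j = ∑ d ∈ (darts c n).filter (fun d => c d.1 = i), G.w d := by
    unfold cut
    rw [← sum_fiberwise ((darts c n).filter fun d => c d.1 = i) (fun d => c (tip d))]
    refine sum_congr rfl fun j _ => ?_
    rw [filter_filter]
  rw [h1]
  refine lc_iso G c (S := (box n).filter fun x => c x = i) (filter_subset _ _)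
    (fun x hx hxi => mem_filter.2 ⟨hx, hxi⟩) fun x k hx hk => ?_
  rw [mem_filter] at hx
  rw [mem_filter, mem_darts h]
  refine ⟨?_, hx.2⟩
  change c x ≠ c (x + dir k)
  rw [hx.2]
  intro h2
  apply hk
  rw [mem_filter]
  refine ⟨?_, h2.symm⟩
  by_contra h3
  exact hi (h2.trans (h _ h3))

end Pool.Agent.Helper98.LC
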