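import Pool.Agent.Helper98.LC.B.Dart

/-!
# LC-B12: closed 1-cochains of the triangulated plane are exact

Auxiliary: for `g : ℤ → ℤ` there is `F : ℤ → ℤ` with `F 0 = 0` and `F (m + 1) - F m = g m` for all `m` (`Int.induction_on` style
definition, or `F m = ∑ i ∈ Ico 0 m, g i - ∑ i ∈ Ico m 0, g i` over integer intervals).
Define `f (a, b) = F₁ a + F₂ a b` with `F₁` for `g a = φ (a,0) 0` and `F₂ a` for `g b = φ (a, b) 2`.
Direction 2: by definition.  The two triangles at `x`: closedness at `(x,0)` and antisymmetry give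
`φ x 1 = φ x 0 + φ (x + dir 0) 2`; closedness at `(x, 1)` gives `φ x 1 = φ x 2 + φ (x + dir 2) 0`.
Direction 0: for `b = 0` by definition; the difference `f ((a+1), b) - f (a, b) - φ (a,b) 0` does not change from `b` to `b + 1`
by the two formulas, so it is `0` for all `b` (`Int.induction_on`).  Direction 1: first formula.  Directions 3, 4, 5: antisymmetry.
-/

namespace Pool.Agent.Helper98.LC

private theorem coch_int (g : ℤ → ℤ) : ∃ F : ℤ → ℤ, F 0 = 0 ∧ ∀ m, F (m + 1) - F m = g m := by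
  refine ⟨fun m => ∑ i ∈ Finset.range m.toNat, g i -
    ∑ i ∈ Finset.range (-m).toNat, g (-((i : ℤ) + 1)), by simp, fun m => ?_⟩
  rcases le_or_gt 0 m with hm | hm
  · obtain ⟨n, rfl⟩ := Int.eq_ofNat_of_zero_le hm
    have h1 : ((n : ℤ) + 1).toNat = n + 1 := by omega
    have h2 : (-((n : ℤ) + 1)).toNat = 0 := by omega
    have h3 : (-(n : ℤ)).toNat = 0 := by omega
    have h4 : ((n : ℤ)).toNat = n := by omega
    simp only [h1, h2, h3, h4, Finset.sum_range_succ, Finset.range_zero, Finset.sum_empty]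
    ring
  · obtain ⟨n, hn⟩ : ∃ n : ℕ, m = -((n : ℤ) + 1) := ⟨(-m - 1).toNat, by omega⟩
    subst hn
    have h1 : (-((n : ℤ) + 1) + 1).toNat = 0 := by omega
    have h2 : (-(-((n : ℤ) + 1) + 1)).toNat = n := by omega
    have h3 : (-((n : ℤ) + 1)).toNat = 0 := by omega
    have h4 : (-(-((n : ℤ) + 1))).toNat = n + 1 := by omega
    simp only [h1, h2, h3, h4, Finset.sum_range_succ, Finset.range_zero, Finset.sum_empty]
    ring

theorem exact_cochain (φ : V → Fin 6 → ℤ) (hanti : ∀ x k, φ (x + dir k) (k + 3) = - φ x k)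
    (hcl : ∀ x k, φ x k + φ (x + dir k) (k + 2) + φ (x + dir (k + 1)) (k + 4) = 0) :
    ∃ f : V → ℤ, ∀ x k, f (x + dir k) - f x = φ x k := by
  obtain ⟨F, hF0, hF⟩ := coch_int fun a => φ (a, 0) 0
  choose G hG0 hG using fun a : ℤ => coch_int fun b => φ (a, b) 2
  let f : V → ℤ := fun x => F x.1 + G x.1 x.2
  have hf : ∀ a b, f (a, b) = F a + G a b := fun _ _ => rfl
  have d0 : ∀ a b : ℤ, ((a, b) : V) + dir 0 = (a + 1, b) := fun a b => by simp [dir]
  have d1 : ∀ a b : ℤ, ((a, b) : V) + dir 1 = (a + 1, b + 1) := fun a b => by simp [dir]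
  have d2 : ∀ a b : ℤ, ((a, b) : V) + dir 2 = (a, b + 1) := fun a b => by simp [dir]
  have t1 : ∀ a b : ℤ, φ (a, b) 1 = φ (a, b) 0 + φ (a + 1, b) 2 := by
    intro a b
    have h1 := hcl (a, b) 0
    have h2 := hanti (a, b) 1
    have e1 : (0 : Fin 6) + 2 = 2 := rfl
    have e2 : (0 : Fin 6) + 1 = 1 := rfl
    have e3 : (0 : Fin 6) + 4 = 4 := rfl
    have e4 : (1 : Fin 6) + 3 = 4 := rfl
    rw [e1, e2, e3, d0] at h1
    rw [e4] at h2
    omega
  have t2 : ∀ a b : ℤ, φ (a, b) 1 = φ (a, b) 2 + φ (a, b + 1) 0 := by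
    intro a b
    have h1 := hcl (a, b) 1
    have h2 := hanti (a, b + 1) 0
    have h3 := hanti (a, b) 2
    have e1 : (1 : Fin 6) + 2 = 3 := rfl
    have e2 : (1 : Fin 6) + 1 = 2 := rfl
    have e3 : (1 : Fin 6) + 4 = 5 := rfl
    have e4 : (0 : Fin 6) + 3 = 3 := rfl
    have e5 : (2 : Fin 6) + 3 = 5 := rfl
    rw [e1, e2, e3, d1, d2] at h1
    rw [e4, d0] at h2
    rw [e5, d2] at h3
    omega
  have k2 : ∀ a b : ℤ, f (a, b + 1) - f (a, b) = φ (a, b) 2 := by
    intro a b
    have h := hG a b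
    rw [hf, hf]
    omega
  have k0 : ∀ b a : ℤ, f (a + 1, b) - f (a, b) = φ (a, b) 0 := by
    intro b
    induction b using Int.induction_on with
    | zero =>
      intro a
      have h := hF a
      rw [hf, hf, hG0, hG0]
      omega
    | succ b ih =>
      intro a
      have h1 := ih a
      have h2 := k2 (a + 1) b
      have h3 := k2 a b
      have h4 := t1 a b
      have h5 := t2 a b
      omega
    | pred b ih =>
      intro a
      have h1 := ih a
      have h2 := k2 (a + 1) (-(b : ℤ) - 1)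
      have h3 := k2 a (-(b : ℤ) - 1)
      have h4 := t1 a (-(b : ℤ) - 1)
      have h5 := t2 a (-(b : ℤ) - 1)
      rw [sub_add_cancel] at h2 h3 h5
      omega
  have k1 : ∀ a b : ℤ, f (a + 1, b + 1) - f (a, b) = φ (a, b) 1 := by
    intro a b
    have h1 := k0 b a
    have h2 := k2 (a + 1) b
    have h3 := t1 a b
    omega
  have m0 : ∀ x, f (x + dir 0) - f x = φ x 0 := by
    rintro ⟨a, b⟩
    rw [d0, k0]
  have m1 : ∀ x, f (x + dir 1) - f x = φ x 1 := by
    rintro ⟨a, b⟩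
    rw [d1, k1]
  have m2 : ∀ x, f (x + dir 2) - f x = φ x 2 := by
    rintro ⟨a, b⟩
    rw [d2, k2]
  have opp : ∀ k : Fin 6, dir (k + 3) + dir k = 0 := by decide
  have mk : ∀ k : Fin 6, (∀ x, f (x + dir k) - f x = φ x k) →
      ∀ x, f (x + dir (k + 3)) - f x = φ x (k + 3) := by
    intro k hk x
    have h1 := hk (x + dir (k + 3))
    have h2 := hanti (x + dir (k + 3)) k
    rw [add_assoc, opp, add_zero] at h1 h2
    omega
  refine ⟨f, fun x k => ?_⟩
  fin_cases k
  · exact m0 x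
  · exact m1 x
  · exact m2 x
  · exact mk 0 m0 x
  · exact mk 1 m1 x
  · exact mk 2 m2 x

end Pool.Agent.Helper98.LC
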