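import Pool.Agent.Helper98.LC.DefsE

/-!
# LC-B10: the classes are connected in the box

`i ≠ o`: the class `i` is contained in `box n`; a path of `Adj1 c` which starts in the class stays in the class
(induction on `ReflTransGen`).
`i = o`: the coordinatewise retraction `r : V → box (n + 1)`, `r (a, b) = (clamp a, clamp b)` with
`clamp a = max (-(n+1)) (min a (n+1))`, maps neighbours to neighbours or equal points (for every direction `k`:
`r (x + dir k) - r x` is `0` or one of the six directions: both coordinates of `dir k` are in `{-1,0,1}` with equal signs if both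
are nonzero, and the clamp either keeps or kills each coordinate of the difference), it fixes `box (n + 1)`, and if `x ∉ box (n + 1)` then
`r x ∉ box n`, so `c (r x) = o`.  So it maps an `Adj1 c`-path in the class `o` to a path (with repetitions) in `cls c (n+1) o`.
-/

namespace Pool.Agent.Helper98.LC

open Finset

variable {ι : Type} [DecidableEq ι]

private def cl (n : ℕ) (a : ℤ) : ℤ := max (-((n : ℤ) + 1)) (min a ((n : ℤ) + 1))

private lemma cl_add (n : ℕ) (a δ : ℤ) (hδ : δ = 0 ∨ δ = 1 ∨ δ = -1) :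
    cl n (a + δ) = cl n a ∨ cl n (a + δ) = cl n a + δ := by
  unfold cl
  omega

private def rr (n : ℕ) (x : V) : V := (cl n x.1, cl n x.2)

private lemma mem_box' (n : ℕ) (x : V) :
    x ∈ box n ↔ (-(n : ℤ) ≤ x.1 ∧ x.1 ≤ n) ∧ (-(n : ℤ) ≤ x.2 ∧ x.2 ≤ n) := by
  unfold box
  rw [Finset.mem_product, Finset.mem_Icc, Finset.mem_Icc]

private lemma rr_mem (n : ℕ) (x : V) : rr n x ∈ box (n + 1) := by
  rw [mem_box']
  unfold rr cl
  push_cast
  omega

private lemma rr_eq (n : ℕ) (x : V) (hx : x ∈ box (n + 1)) : rr n x = x := by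
  rw [mem_box'] at hx
  push_cast at hx
  apply Prod.ext
  · unfold rr cl
    simp only
    omega
  · unfold rr cl
    simp only
    omega

private lemma rr_not_mem (n : ℕ) (x : V) (hx : x ∉ box (n + 1)) : rr n x ∉ box n := by
  rw [mem_box'] at hx ⊢
  push_cast at hx
  unfold rr cl
  simp only
  omega

private lemma rr_step (n : ℕ) (x : V) (k : Fin 6) :
    rr n (x + dir k) = rr n x ∨ ∃ k', rr n (x + dir k) = rr n x + dir k' := by
  obtain ⟨a, b⟩ := x
  have key : ∀ δ ε : ℤ, (δ = 0 ∨ δ = 1 ∨ δ = -1) → (ε = 0 ∨ ε = 1 ∨ ε = -1) →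
      (rr n ((a, b) + (δ, ε)) = rr n (a, b) ∨ rr n ((a, b) + (δ, ε)) = rr n (a, b) + (δ, 0) ∨
        rr n ((a, b) + (δ, ε)) = rr n (a, b) + (0, ε) ∨ rr n ((a, b) + (δ, ε)) = rr n (a, b) + (δ, ε)) := by
    intro δ ε hδ hε
    have h1 := cl_add n a δ hδ
    have h2 := cl_add n b ε hε
    simp only [rr, Prod.mk_add_mk, Prod.mk.injEq, add_zero]
    rcases h1 with h1 | h1 <;> rcases h2 with h2 | h2 <;> simp [h1, h2]
  have hd : ∀ j : Fin 6, dir j = ((![(1, 0), (1, 1), (0, 1), (-1, 0), (-1, -1), (0, -1)] : Fin 6 → ℤ × ℤ) j) :=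
    fun j => rfl
  fin_cases k
  · rcases key 1 0 (by simp) (by simp) with h | h | h | h
    · exact Or.inl h
    · exact Or.inr ⟨0, h⟩
    · exact Or.inl (h.trans (by simp))
    · exact Or.inr ⟨0, h⟩
  · rcases key 1 1 (by simp) (by simp) with h | h | h | h
    · exact Or.inl h
    · exact Or.inr ⟨0, h⟩
    · exact Or.inr ⟨2, h⟩
    · exact Or.inr ⟨1, h⟩
  · rcases key 0 1 (by simp) (by simp) with h | h | h | h
    · exact Or.inl h
    · exact Or.inl (h.trans (by simp))
    · exact Or.inr ⟨2, h⟩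
    · exact Or.inr ⟨2, h⟩
  · rcases key (-1) 0 (by simp) (by simp) with h | h | h | h
    · exact Or.inl h
    · exact Or.inr ⟨3, h⟩
    · exact Or.inl (h.trans (by simp))
    · exact Or.inr ⟨3, h⟩
  · rcases key (-1) (-1) (by simp) (by simp) with h | h | h | h
    · exact Or.inl h
    · exact Or.inr ⟨3, h⟩
    · exact Or.inr ⟨5, h⟩
    · exact Or.inr ⟨4, h⟩
  · rcases key 0 (-1) (by simp) (by simp) with h | h | h | h
    · exact Or.inl h
    · exact Or.inl (h.trans (by simp))
    · exact Or.inr ⟨5, h⟩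
    · exact Or.inr ⟨5, h⟩

theorem connSet_cls {c : V → ι} {o : ι} {n : ℕ} (h : OutBox c o n) (hc : Conn c) (i : ι) :
    ConnSet (cls c (n + 1) i) := by
  have hr : ∀ x, c (rr n x) = c x := by
    intro x
    by_cases hx : x ∈ box (n + 1)
    · rw [rr_eq n x hx]
    · have hx' : x ∉ box n := by
        intro hx2
        apply hx
        rw [mem_box'] at hx2 ⊢
        push_cast
        omega
      rw [h x hx', h _ (rr_not_mem n x hx)]
  have hpath : ∀ x y, Relation.ReflTransGen (Adj1 c) x y → c x = i →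
      c y = i ∧ Relation.ReflTransGen (fun a b : V => a ∈ cls c (n + 1) i ∧ b ∈ cls c (n + 1) i ∧
        ∃ k, b = a + dir k) (rr n x) (rr n y) := by
    intro x y hxy hx
    induction hxy with
    | refl => exact ⟨hx, Relation.ReflTransGen.refl⟩
    | tail _ hbc ih =>
      rename_i b c' _
      obtain ⟨hb, hpb⟩ := ih
      obtain ⟨hbc1, k, rfl⟩ := hbc
      have hc1 : c (b + dir k) = i := hbc1.symm.trans hb
      refine ⟨hc1, ?_⟩
      rcases rr_step n b k with h1 | ⟨k', h1⟩
      · rw [h1]; exact hpb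
      · refine hpb.tail ⟨?_, ?_, k', h1⟩
        · unfold cls
          rw [Finset.mem_filter]
          exact ⟨rr_mem n b, (hr b).trans hb⟩
        · unfold cls
          rw [Finset.mem_filter]
          exact ⟨rr_mem n _, (hr _).trans hc1⟩
  intro x hx y hy
  unfold cls at hx hy
  rw [Finset.mem_filter] at hx hy
  have := (hpath x y (hc x y (hx.2.trans hy.2.symm)) hx.2).2
  rwa [rr_eq n x hx.1, rr_eq n y hy.1] at this

end Pool.Agent.Helper98.LC
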