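import Pool.Agent.Helper98.LC.Defs2

/-!
# LC-B01: arithmetic of darts

Everything is a finite check in `Fin 6` (`dir (k + 3) = - dir k`, `dir (k - 1) + dir (k + 1) = dir k`,
`dir k + dir (k + 2) = dir (k + 1)`: `decide` / `fin_cases k`) plus unfolding.

* `rev (rev d) = d`.
* `next` and `prev` preserve `IsCut` and the class of the starting vertex, and are inverse to each
  other on cut darts.  Case 1 (third vertex in the class): `next d = (third d, k - 1)`, its tip is
  `x + dir (k+1) + dir (k-1) = x + dir k`; `prev` of it looks at `third d + dir (k - 2)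
  = third d - dir (k + 1) = x`, which is in the class, so it returns `(x, k)`.  Case 2: `next d =
  (x, k + 1)`, `prev` looks at `x + dir k`, not in the class (cut), so it returns `(x, k)`.
* `z` is constant on the triangle: from `z_rot` (twice) `z (x + dir (k+1)) (k + 4) = z x k`.
  So `zr (next d) = zl d` where `zr d = z d.1 (d.2 - 1)`, `zl (rev d) = zr d`, `zr (rev d) = zl d`.
* `w (rev d) = w d`, `et (rev d) = - et d`.
* Along an edge the other side stays in the same class: if `d` is cut and not a corner then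
  `c (tip (next d)) = c (tip d)` and `rev (next d) = prev (rev d)`.
* If `d` is a corner dart then `next d = (d.1, d.2 + 1)`, and the darts `d` , `(tip d, d.2 + 2)`,
  `(third d, d.2 + 4)` (the three darts of the same triangle) are corner darts.
* The right triangle of `d` is the left triangle of `rev d`; `IsCorner c (prev c (rev d)) ↔
  IsCorner c d` for cut darts `d`: the left triangle of `prev c (rev d)` is the right triangle of `rev d`,
  i.e. the left triangle of `d` (as sets of vertices).
-/

namespace Pool.Agent.Helper98.LC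

open Finset

variable {ι : Type} [DecidableEq ι]

theorem dir_add3 (k : Fin 6) : dir (k + 3) = - dir k := by
  revert k; decide

theorem dir_pred_succ (k : Fin 6) : dir (k - 1) + dir (k + 1) = dir k := by
  revert k; decide

private theorem dir_add_two (k : Fin 6) : dir k + dir (k + 2) = dir (k + 1) := by
  revert k; decide

private theorem fa (k : Fin 6) : k + 3 + 3 = k := by revert k; decide

private theorem fb (k : Fin 6) : k + 3 - 1 = k + 2 := by revert k; decide

private theorem fc (k : Fin 6) : k + 3 + 1 = k + 4 := by revert k; decide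

private theorem fd (k : Fin 6) : k - 1 + 3 = k + 2 := by revert k; decide

private theorem fe (k : Fin 6) : k + 1 + 3 = k + 4 := by revert k; decide

private theorem ff (k : Fin 6) : k + 2 + 1 = k + 3 := by revert k; decide

private theorem fh (k : Fin 6) : k + 2 + 2 = k + 4 := by revert k; decide

private theorem fi (k : Fin 6) : k - 1 + 1 = k := by revert k; decide

private theorem fj (k : Fin 6) : k + 1 - 1 = k := by revert k; decide

private theorem fk (k : Fin 6) : k - 1 - 1 = k - 2 := by revert k; decide

private theorem fm (k : Fin 6) : k - 1 - 1 = k + 4 := by revert k; decide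

private theorem fn (k : Fin 6) : k - 1 + 4 = k + 3 := by revert k; decide

private theorem dir_sub2 (k : Fin 6) : dir (k - 2) = - dir (k + 1) := by
  revert k; decide

theorem rev_rev (d : V × Fin 6) : rev (rev d) = d := by
  obtain ⟨x, k⟩ := d
  simp only [rev, dir_add3, fa]
  rw [add_assoc, add_neg_cancel, add_zero]

theorem tip_rev (d : V × Fin 6) : tip (rev d) = d.1 := by
  obtain ⟨x, k⟩ := d
  simp only [rev, tip, dir_add3]
  rw [add_assoc, add_neg_cancel, add_zero]

theorem isCut_rev (c : V → ι) (d : V × Fin 6) : IsCut c (rev d) ↔ IsCut c d := by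
  unfold IsCut
  rw [tip_rev]
  exact ne_comm

private theorem tip_third (x : V) (k : Fin 6) : x + dir (k + 1) + dir (k - 1) = x + dir k := by
  rw [add_assoc, add_comm (dir (k + 1)), dir_pred_succ]

theorem isCut_next (c : V → ι) {d : V × Fin 6} (h : IsCut c d) : IsCut c (next c d) := by
  obtain ⟨x, k⟩ := d
  unfold next
  split_ifs with h1
  · simp only [IsCut, tip, third] at *
    rw [tip_third, h1]
    exact h
  · simp only [IsCut, tip, third] at *
    exact fun h2 => h1 h2.symm

theorem isCut_prev (c : V → ι) {d : V × Fin 6} (h : IsCut c d) : IsCut c (prev c d) := by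
  obtain ⟨x, k⟩ := d
  unfold prev
  split_ifs with h1
  · simp only [IsCut, tip] at *
    rw [add_assoc, dir_pred_succ, h1]
    exact h
  · simp only [IsCut, tip] at *
    exact fun h2 => h1 h2.symm

theorem class_next (c : V → ι) (d : V × Fin 6) : c (next c d).1 = c d.1 := by
  unfold next
  split_ifs with h1
  · exact h1
  · rfl

theorem class_prev (c : V → ι) (d : V × Fin 6) : c (prev c d).1 = c d.1 := by
  unfold prev
  split_ifs with h1
  · exact h1
  · rfl

private theorem next_pos (c : V → ι) (x : V) (k : Fin 6) (h : c (x + dir (k + 1)) = c x) :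
    next c (x, k) = (x + dir (k + 1), k - 1) := if_pos h

private theorem next_neg (c : V → ι) (x : V) (k : Fin 6) (h : c (x + dir (k + 1)) ≠ c x) :
    next c (x, k) = (x, k + 1) := if_neg h

private theorem prev_pos (c : V → ι) (x : V) (k : Fin 6) (h : c (x + dir (k - 1)) = c x) :
    prev c (x, k) = (x + dir (k - 1), k + 1) := if_pos h

private theorem prev_neg (c : V → ι) (x : V) (k : Fin 6) (h : c (x + dir (k - 1)) ≠ c x) :
    prev c (x, k) = (x, k - 1) := if_neg h

theorem prev_next (c : V → ι) {d : V × Fin 6} (h : IsCut c d) : prev c (next c d) = d := by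
  obtain ⟨x, k⟩ := d
  have h' : c x ≠ c (x + dir k) := h
  by_cases h1 : c (x + dir (k + 1)) = c x
  · have e : x + dir (k + 1) + dir (k - 1 - 1) = x := by
      rw [fk, dir_sub2, add_assoc, add_neg_cancel, add_zero]
    rw [next_pos c x k h1, prev_pos c _ _ (by rw [e, h1]), e, fi]
  · rw [next_neg c x k h1, prev_neg c _ _ (by rw [fj]; exact fun h2 => h' h2.symm), fj]

theorem next_prev (c : V → ι) {d : V × Fin 6} (h : IsCut c d) : next c (prev c d) = d := by
  obtain ⟨x, k⟩ := d
  have h' : c x ≠ c (x + dir k) := h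
  by_cases h1 : c (x + dir (k - 1)) = c x
  · have e : x + dir (k - 1) + dir (k + 1 + 1) = x := by
      have e' : k + 1 + 1 = k - 1 + 3 := by clear h h' h1; revert k; decide
      rw [e', dir_add3, add_assoc, add_neg_cancel, add_zero]
    rw [prev_pos c x k h1, next_pos c _ _ (by rw [e, h1]), e, fj]
  · rw [prev_neg c x k h1, next_neg c _ _ (by rw [fi]; exact fun h2 => h' h2.symm), fi]

private theorem z_rot2 (G : Net) (x : V) (k : Fin 6) : G.z (x + dir (k + 1)) (k + 4) = G.z x k := by
  have h := G.z_rot (x + dir k) (k + 2)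
  rw [add_assoc, dir_add_two, fh] at h
  rw [h]
  exact G.z_rot x k

theorem zr_next (G : Net) (c : V → ι) (d : V × Fin 6) :
    G.z (next c d).1 ((next c d).2 - 1) = G.zl d := by
  obtain ⟨x, k⟩ := d
  unfold next
  split_ifs with h1
  · simp only [Net.zl, third]
    have e : k - 1 - 1 = k + 4 := fm k
    rw [e, z_rot2]
  · simp only [Net.zl]
    rw [fj]

theorem zl_rev (G : Net) (d : V × Fin 6) : G.zl (rev d) = G.z d.1 (d.2 - 1) := by
  obtain ⟨x, k⟩ := d
  simp only [Net.zl, rev]
  have h := z_rot2 G x (k - 1)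
  rw [fi] at h
  have e : k - 1 + 4 = k + 3 := fn k
  rw [e] at h
  exact h

theorem zr_rev (G : Net) (d : V × Fin 6) : G.z (rev d).1 ((rev d).2 - 1) = G.zl d := by
  obtain ⟨x, k⟩ := d
  simp only [Net.zl, rev]
  rw [fb]
  exact G.z_rot x k

private theorem q_rev' (G : Net) (d : V × Fin 6) : G.q (rev d).1 (rev d).2 = G.q d.1 d.2 := by
  obtain ⟨x, k⟩ := d
  exact G.q_rev x k

theorem w_rev (G : Net) (d : V × Fin 6) : G.w (rev d) = G.w d := by
  have h1 := zl_rev G d
  have h2 := zr_rev G d
  have h3 := q_rev' G d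
  unfold Net.zl at h1 h2
  unfold Net.w
  rw [h1, h2, h3, norm_sub_rev (G.q d.1 d.2) (G.z d.1 d.2),
    norm_sub_rev (G.z d.1 (d.2 - 1)) (G.q d.1 d.2)]
  ring

theorem w_nonneg (G : Net) (d : V × Fin 6) : 0 ≤ G.w d := by
  unfold Net.w
  positivity

theorem et_rev (G : Net) (d : V × Fin 6) : G.et (rev d) = - G.et d := by
  have h1 := zl_rev G d
  have h2 := zr_rev G d
  have h3 := q_rev' G d
  unfold Net.zl at h1 h2
  unfold Net.et
  rw [h1, h2, h3]
  unfold cr
  ring

theorem class_tip_next (c : V → ι) {d : V × Fin 6} (h : IsCut c d) (hc : ¬ IsCorner c d) :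
    c (tip (next c d)) = c (tip d) := by
  obtain ⟨x, k⟩ := d
  unfold next
  split_ifs with h1
  · simp only [tip, third]
    rw [tip_third]
  · by_contra h2
    exact hc ⟨h, h1, h2⟩

private theorem rot_a (x : V) (k : Fin 6) : x + dir k + dir (k + 2) = x + dir (k + 1) := by
  rw [add_assoc, dir_add_two]

private theorem rot_b (x : V) (k : Fin 6) : x + dir k + dir (k + 3) = x := by
  rw [add_assoc, dir_add3, add_neg_cancel, add_zero]

theorem rev_next (c : V → ι) {d : V × Fin 6} (h : IsCut c d) (hc : ¬ IsCorner c d) :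
    rev (next c d) = prev c (rev d) := by
  obtain ⟨x, k⟩ := d
  have h' : c x ≠ c (x + dir k) := h
  have er : rev (x, k) = (x + dir k, k + 3) := rfl
  rw [er]
  by_cases h1 : c (x + dir (k + 1)) = c x
  · rw [next_pos c x k h1, prev_neg c _ _ (by rw [fb, rot_a, h1]; exact h'), fb]
    unfold rev
    simp only
    rw [tip_third, fd]
  · have h2 : c (x + dir (k + 1)) = c (x + dir k) := by
      by_contra h2
      exact hc ⟨h, h1, h2⟩
    rw [next_neg c x k h1, prev_pos c _ _ (by rw [fb, rot_a, h2]), fb, rot_a, fc]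
    unfold rev
    simp only
    rw [fe]

theorem next_corner (c : V → ι) {d : V × Fin 6} (h : IsCorner c d) :
    next c d = (d.1, d.2 + 1) := by
  unfold next
  rw [if_neg h.2.1]

omit [DecidableEq ι] in
private theorem isCorner_iff (c : V → ι) (x : V) (k : Fin 6) :
    IsCorner c (x, k) ↔ c x ≠ c (x + dir k) ∧ c (x + dir (k + 1)) ≠ c x ∧
      c (x + dir (k + 1)) ≠ c (x + dir k) := Iff.rfl

theorem isCorner_rot (c : V → ι) (d : V × Fin 6) :
    IsCorner c (tip d, d.2 + 2) ↔ IsCorner c d := by
  obtain ⟨x, k⟩ := d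
  simp only [tip]
  rw [isCorner_iff, isCorner_iff, rot_a, ff, rot_b]
  constructor
  · rintro ⟨h1, h2, h3⟩
    exact ⟨h2, fun h => h3 h.symm, fun h => h1 h.symm⟩
  · rintro ⟨h1, h2, h3⟩
    exact ⟨fun h => h3 h.symm, h1, fun h => h2 h.symm⟩

private theorem isCorner_rot2 (c : V → ι) (x : V) (k : Fin 6) :
    IsCorner c (x + dir (k + 1), k + 4) ↔ IsCorner c (x, k) := by
  have h := isCorner_rot c (x + dir k, k + 2)
  simp only [tip] at h
  rw [rot_a, fh] at h
  exact h.trans (isCorner_rot c (x, k))

theorem isCorner_prev_rev (c : V → ι) {d : V × Fin 6} (h : IsCut c d) :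
    IsCorner c (prev c (rev d)) ↔ IsCorner c d := by
  obtain ⟨x, k⟩ := d
  have er : rev (x, k) = (x + dir k, k + 3) := rfl
  rw [er]
  by_cases h1 : c (x + dir (k + 1)) = c (x + dir k)
  · rw [prev_pos c _ _ (by rw [fb, rot_a, h1]), fb, rot_a, fc]
    exact isCorner_rot2 c x k
  · rw [prev_neg c _ _ (by rw [fb, rot_a]; exact h1), fb]
    exact isCorner_rot c (x, k)

theorem zl_prev_rev (G : Net) (c : V → ι) {d : V × Fin 6} (h : IsCut c d) :
    G.zl (prev c (rev d)) = G.zl d := by
  obtain ⟨x, k⟩ := d
  have er : rev (x, k) = (x + dir k, k + 3) := rfl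
  rw [er]
  by_cases h1 : c (x + dir (k + 1)) = c (x + dir k)
  · rw [prev_pos c _ _ (by rw [fb, rot_a, h1]), fb, rot_a, fc]
    exact z_rot2 G x k
  · rw [prev_neg c _ _ (by rw [fb, rot_a]; exact h1), fb]
    exact G.z_rot x k

end Pool.Agent.Helper98.LC
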