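import Pool.Agent.Helper98.LC.B.Area

/-!
# LC-B03: edges

`next c` is a permutation of the finite set `darts c n` (`isCut_next`, `prev_next`, `next_prev`,
`mem_darts`), so the orbit of every cut dart is periodic: `(next c)^[p] d = d` for some `p ≥ 1`.

* `emul_spec`: if `d` is a corner dart then `m = p` satisfies `IsCorner c ((next c)^[m] d)`, so the `dite` in
  `emul` is the first branch.
* `es_mem`: the class does not change along `next` (`class_next`).
* `es_bij`: `es` is injective on corner darts: if `es c d = es c d'` with `emul c d ≤ emul c d'`, then applying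
  `prev` `emul c d` times gives `d = (next c)^[emul c d' - emul c d] d'`; `d` is a corner dart, so minimality of
  `emul c d'` forces `emul c d' - emul c d = 0`.  A finite injective self map is bijective.
* `sum_edges`: the map `(d, j) ↦ edart c d j` from pairs (corner dart `d` of the class `i`, `1 ≤ j ≤ emul c d`)
  to the cut darts of the class `i` is injective (if `edart c d j = edart c d' j'`, iterate `next` until the
  first corner: `emul c d - j = emul c d' - j'` and `es c d = es c d'`, so `d = d'`, `j = j'`) and, if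
  there are no loops, surjective: go backwards from a cut dart `x` with `prev` to the last corner
  before it; it exists: some corner is in the orbit of `x` by `NoLoop`, the orbit is a cycle, so let `j ≥ 1` be
  minimal with `(prev c)^[j] x` a corner.
-/

namespace Pool.Agent.Helper98.LC

open Finset

variable {ι : Type} [DecidableEq ι]

omit [DecidableEq ι] in
theorem edge_cut_of_corner {c : V → ι} {d : V × Fin 6} (hd : IsCorner c d) : IsCut c d := hd.1

theorem edge_iter_cut {c : V → ι} {d : V × Fin 6} (hd : IsCut c d) (j : ℕ) :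
    IsCut c ((next c)^[j] d) := by
  induction j with
  | zero => exact hd
  | succ j ih =>
    rw [Function.iterate_succ_apply']
    exact isCut_next c ih

theorem edge_iter_inj {c : V → ι} {d d' : V × Fin 6} (hd : IsCut c d) (hd' : IsCut c d') (j : ℕ)
    (h : (next c)^[j] d = (next c)^[j] d') : d = d' := by
  induction j with
  | zero => exact h
  | succ j ih =>
    rw [Function.iterate_succ_apply', Function.iterate_succ_apply'] at h
    apply ih
    rw [← prev_next c (edge_iter_cut hd j), h, prev_next c (edge_iter_cut hd' j)]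

theorem edge_period {c : V → ι} {o : ι} {n : ℕ} (h : OutBox c o n) {d : V × Fin 6}
    (hd : IsCut c d) : ∃ p, 1 ≤ p ∧ (next c)^[p] d = d := by
  set f : {x // x ∈ darts c n} → {x // x ∈ darts c n} := fun x =>
    ⟨next c x.1, (mem_darts h _).2 (isCut_next c ((mem_darts h _).1 x.2))⟩ with hf
  have hinj : Function.Injective f := by
    intro x y hxy
    have h1 : next c x.1 = next c y.1 := congrArg Subtype.val hxy
    apply Subtype.ext
    rw [← prev_next c ((mem_darts h _).1 x.2), h1, prev_next c ((mem_darts h _).1 y.2)]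
  have hit : ∀ (m : ℕ) (x : {x // x ∈ darts c n}), (f^[m] x).1 = (next c)^[m] x.1 := by
    intro m
    induction m with
    | zero => intro x; rfl
    | succ m ih =>
      intro x
      rw [Function.iterate_succ_apply, Function.iterate_succ_apply, ih]
  obtain ⟨p, hp, hper⟩ := hinj.mem_periodicPts ⟨d, (mem_darts h _).2 hd⟩
  refine ⟨p, hp, ?_⟩
  have h2 := congrArg Subtype.val hper
  rw [hit] at h2
  exact h2

theorem emul_spec {c : V → ι} {o : ι} {n : ℕ} (h : OutBox c o n) {d : V × Fin 6}
    (hd : IsCorner c d) :
    1 ≤ emul c d ∧ IsCorner c (es c d) ∧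
      ∀ j, 1 ≤ j → j < emul c d → ¬ IsCorner c (edart c d j) := by
  classical
  obtain ⟨p, hp, hper⟩ := edge_period h (edge_cut_of_corner hd)
  have hex : ∃ m : ℕ, 1 ≤ m ∧ IsCorner c ((next c)^[m] d) := ⟨p, hp, by rw [hper]; exact hd⟩
  have e : emul c d = Nat.find hex := by
    unfold emul
    rw [dif_pos hex]
  have h1 := Nat.find_spec hex
  refine ⟨by rw [e]; exact h1.1, ?_, fun j hj hlt hc => ?_⟩
  · unfold es
    rw [e]
    exact h1.2
  · rw [e] at hlt
    exact Nat.find_min hex hlt ⟨hj, hc⟩

theorem edart_cut {c : V → ι} {d : V × Fin 6} (hd : IsCut c d) (j : ℕ) :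
    IsCut c (edart c d j) := edge_iter_cut hd j

theorem edart_class (c : V → ι) (d : V × Fin 6) (j : ℕ) : c (edart c d j).1 = c d.1 := by
  unfold edart
  induction j with
  | zero => rfl
  | succ j ih =>
    rw [Function.iterate_succ_apply', class_next c, ih]

theorem mem_corners {c : V → ι} {o : ι} {n : ℕ} (h : OutBox c o n) (i : ι) (d : V × Fin 6) :
    d ∈ corners c n i ↔ IsCorner c d ∧ c d.1 = i := by
  unfold corners
  rw [mem_filter, mem_darts h]
  exact ⟨fun hh => hh.2, fun hh => ⟨edge_cut_of_corner hh.1, hh⟩⟩

theorem es_mem {c : V → ι} {o : ι} {n : ℕ} (h : OutBox c o n) {i : ι} {d : V × Fin 6}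
    (hd : d ∈ corners c n i) : es c d ∈ corners c n i := by
  rw [mem_corners h] at hd ⊢
  exact ⟨(emul_spec h hd.1).2.1, (edart_class c d (emul c d)).trans hd.2⟩

theorem edge_es_inj {c : V → ι} {o : ι} {n : ℕ} (h : OutBox c o n) {d d' : V × Fin 6}
    (hd : IsCorner c d) (hd' : IsCorner c d') (hle : emul c d ≤ emul c d')
    (he : es c d = es c d') : d = d' := by
  obtain ⟨k, hk⟩ := Nat.exists_eq_add_of_le hle
  have h1 : (next c)^[emul c d] d = (next c)^[emul c d] ((next c)^[k] d') := by
    rw [← Function.iterate_add_apply, ← hk]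
    exact he
  have h2 := edge_iter_inj (edge_cut_of_corner hd)
    (edge_iter_cut (edge_cut_of_corner hd') k) _ h1
  rcases Nat.eq_zero_or_pos k with hk0 | hk0
  · rw [hk0] at h2
    exact h2
  · exfalso
    have h3 := (emul_spec h hd).1
    refine (emul_spec h hd').2.2 k hk0 (by omega) ?_
    unfold edart
    rw [← h2]
    exact hd

theorem edge_es_inj' {c : V → ι} {o : ι} {n : ℕ} (h : OutBox c o n) {d d' : V × Fin 6}
    (hd : IsCorner c d) (hd' : IsCorner c d') (he : es c d = es c d') : d = d' := by
  rcases le_total (emul c d) (emul c d') with hle | hle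
  · exact edge_es_inj h hd hd' hle he
  · exact (edge_es_inj h hd' hd hle he.symm).symm

theorem es_bij {c : V → ι} {o : ι} {n : ℕ} (h : OutBox c o n) (i : ι) :
    Set.BijOn (es c) (corners c n i : Set (V × Fin 6)) (corners c n i : Set (V × Fin 6)) := by
  have hmaps : Set.MapsTo (es c) (corners c n i : Set (V × Fin 6))
      (corners c n i : Set (V × Fin 6)) := fun d hd => es_mem h hd
  have hinj : Set.InjOn (es c) (corners c n i : Set (V × Fin 6)) := by
    intro d hd d' hd' he
    exact edge_es_inj' h ((mem_corners h i d).1 hd).1 ((mem_corners h i d').1 hd').1 he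
  exact ⟨hmaps, hinj, Finset.surjOn_of_injOn_of_card_le _ hmaps hinj le_rfl⟩

theorem edge_iter_emul {c : V → ι} {d : V × Fin 6} {j : ℕ} (hj : j ≤ emul c d) :
    (next c)^[emul c d - j] (edart c d j) = es c d := by
  unfold edart es
  rw [← Function.iterate_add_apply]
  congr 2
  omega

theorem edge_iter_not {c : V → ι} {o : ι} {n : ℕ} (h : OutBox c o n) {d : V × Fin 6}
    (hd : IsCorner c d) {j t : ℕ} (hj : 1 ≤ j) (ht : t < emul c d - j) :
    ¬ IsCorner c ((next c)^[t] (edart c d j)) := by
  unfold edart
  rw [← Function.iterate_add_apply]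
  exact (emul_spec h hd).2.2 (t + j) (by omega) (by omega)

theorem sum_edges {c : V → ι} {o : ι} {n : ℕ} (h : OutBox c o n) (hl : NoLoop c) (i : ι)
    (f : V × Fin 6 → ℝ) :
    ∑ d ∈ corners c n i, ∑ j ∈ Icc 1 (emul c d), f (edart c d j) =
      ∑ d ∈ (darts c n).filter (fun d => c d.1 = i), f d := by
  classical
  rw [Finset.sum_sigma']
  refine Finset.sum_bij (fun x _ => edart c x.1 x.2) ?_ ?_ ?_ ?_
  · rintro ⟨d, j⟩ hx
    rw [mem_sigma] at hx
    have hd := (mem_corners h i d).1 hx.1
    rw [mem_filter, mem_darts h]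
    exact ⟨edart_cut (edge_cut_of_corner hd.1) j, (edart_class c d j).trans hd.2⟩
  · rintro ⟨d, j⟩ hx ⟨d', j'⟩ hx' he
    rw [mem_sigma] at hx hx'
    have hd := ((mem_corners h i d).1 hx.1).1
    have hd' := ((mem_corners h i d').1 hx'.1).1
    have hj := mem_Icc.1 hx.2
    have hj' := mem_Icc.1 hx'.2
    dsimp only at hj hj' he hd hd'
    have h1 := edge_iter_emul (c := c) (d := d) hj.2
    have h2 := edge_iter_emul (c := c) (d := d') hj'.2
    have c1 := (emul_spec h hd).2.1
    have c2 := (emul_spec h hd').2.1
    have ha : emul c d - j = emul c d' - j' := by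
      rcases lt_trichotomy (emul c d - j) (emul c d' - j') with hlt | heq | hlt
      · exfalso
        refine edge_iter_not h hd' hj'.1 hlt ?_
        rw [← he, h1]
        exact c1
      · exact heq
      · exfalso
        refine edge_iter_not h hd hj.1 hlt ?_
        rw [he, h2]
        exact c2
    have hes : es c d = es c d' := by
      rw [← h1, ← h2, ha, he]
    have hdd := edge_es_inj' h hd hd' hes
    subst hdd
    have hjj : j = j' := by omega
    subst hjj
    rfl
  · intro x hx
    rw [mem_filter, mem_darts h] at hx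
    obtain ⟨hxc, hxi⟩ := hx
    obtain ⟨m, hm⟩ := hl x hxc
    obtain ⟨p, hp, hper⟩ := edge_period h hxc
    have hex : ∃ j : ℕ, 1 ≤ j ∧ ∃ y, IsCorner c y ∧ (next c)^[j] y = x := by
      have hk : (next c)^[p * (m + 1)] x = x := by
        rw [Function.iterate_mul]
        exact Function.iterate_fixed hper (m + 1)
      have hlt : m < p * (m + 1) := by nlinarith
      refine ⟨p * (m + 1) - m, by omega, (next c)^[m] x, hm, ?_⟩
      rw [← Function.iterate_add_apply, Nat.sub_add_cancel hlt.le]
      exact hk
    obtain ⟨hj1, y, hy, hyx⟩ := Nat.find_spec hex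
    set j := Nat.find hex with hjdef
    have hle : j ≤ emul c y := by
      by_contra hcon
      push Not at hcon
      have h3 := emul_spec h hy
      refine Nat.find_min hex (m := j - emul c y) (by omega) ⟨by omega, es c y, h3.2.1, ?_⟩
      unfold es
      rw [← Function.iterate_add_apply, Nat.sub_add_cancel hcon.le]
      exact hyx
    refine ⟨⟨y, j⟩, ?_, hyx⟩
    rw [mem_sigma]
    refine ⟨(mem_corners h i y).2 ⟨hy, ?_⟩, mem_Icc.2 ⟨hj1, hle⟩⟩
    rw [← hxi, ← hyx]
    exact (edart_class c y j).symm
  · intro x _
    rfl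

end Pool.Agent.Helper98.LC
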