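import Pool.Agent.Helper98.LC.B.Edge

/-!
# LC-B04: the two sides of an edge

Let `d` be a corner dart, `m = emul c d`, `d_j = edart c d j` (`d_{j+1} = next c d_j`, `d_m = es c d`).  The darts `d_j`,
`1 ≤ j < m`, are cut and no corners.

* `tip_class`: `c (tip d_j) = enb c d` for `1 ≤ j ≤ m` (`class_tip_next`, induction).
* `edart_eopp`: put `d' = eopp c d = prev c (rev d_m)`.  It is a corner dart by `isCorner_prev_rev`.
  `next c d' = rev d_m` (`next_prev`, the dart `rev d_m` is cut), and `next c (rev d_{j+1}) = rev d_j` for `1 ≤ j < m`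
  (by `rev_next`: `rev d_{j+1} = prev c (rev d_j)`, then `next_prev`).  So `edart c d' j = rev d_{m + 1 - j}` for
  `1 ≤ j ≤ m`.
* For `2 ≤ j + 1 ≤ m` the dart `rev d_{j+1} = prev c (rev d_j)` is a corner iff `d_j` is (`isCorner_prev_rev`), so it is not;
  and `rev d_1` is a corner: `IsCorner c (rev d_1)` — the left triangle of `rev d_1` is the right triangle of
  `d_1 = next c d`, which is the left triangle of `d`: use `next_corner`: `d_1 = (d.1, d.2 + 1)`,
  `rev d_1 = (third d, d.2 + 4)` and `isCorner_rot` twice.  Hence `emul c d' = m`, `es c d' = rev d_1`.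
* `eopp c d' = prev c (rev (rev d_1)) = prev c (next c d) = d`.
* lengths: `w_rev`, reflect the sum over `Icc 1 m`; areas: `et_rev`; chord: `zl d' = zl (es c d)` (`zl_prev_rev`) and
  `zl (es c d') = zl (rev d_1) = zr d_1 = zl d` (`zl_rev`, `zr_next`); `cr a b = - cr b a`.
* `enb_ne`: `d_1` is cut.  `enb_es_ne`: `enb c (es c d) = c (tip (next c (es c d))) = c (third (es c d))` (by `next_corner`)
  differs from `c (tip (es c d)) = enb c d`, because `es c d` is a corner.
* `cut_ge`: the darts of the edge are distinct darts from class `i` to class `j` (`j = enb`): `elen` is at most `cut`;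
  distinctness as in `sum_edges` (if `d_j = d_{j'}` with `j < j'` then `prev` iterates give `d = d_{j' - j}` corner, contradiction
  to the minimality of `m`).
-/

namespace Pool.Agent.Helper98.LC

open Finset

variable {ι : Type} [DecidableEq ι]

private theorem er_succ (c : V → ι) (d : V × Fin 6) (j : ℕ) :
    edart c d (j + 1) = next c (edart c d j) := by
  unfold edart
  rw [Function.iterate_succ_apply']

private theorem er_one (c : V → ι) (d : V × Fin 6) : edart c d 1 = next c d := rfl

private theorem er_es (c : V → ι) (d : V × Fin 6) : es c d = edart c d (emul c d) := rfl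

private theorem er_prev_iter {c : V → ι} {d : V × Fin 6} (hd : IsCut c d) (j k : ℕ) :
    (prev c)^[j] (edart c d (j + k)) = edart c d k := by
  induction j with
  | zero => rw [Function.iterate_zero, id, Nat.zero_add]
  | succ j ih =>
    have h1 : j + 1 + k = (j + k) + 1 := by omega
    rw [Function.iterate_succ_apply, h1, er_succ, prev_next c (edart_cut hd (j + k)), ih]

theorem tip_class {c : V → ι} {o : ι} {n : ℕ} (h : OutBox c o n) {d : V × Fin 6}
    (hd : IsCorner c d) {j : ℕ} (h1 : 1 ≤ j) (h2 : j ≤ emul c d) :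
    c (tip (edart c d j)) = enb c d := by
  induction j, h1 using Nat.le_induction with
  | base => rfl
  | succ j hj ih =>
    have h3 := (emul_spec h hd).2.2 j hj (by omega)
    rw [er_succ, class_tip_next c (edart_cut hd.1 j) h3]
    exact ih (by omega)

private theorem er_step {c : V → ι} {o : ι} {n : ℕ} (h : OutBox c o n) {d : V × Fin 6}
    (hd : IsCorner c d) {i : ℕ} (h1 : 1 ≤ i) (h2 : i < emul c d) :
    rev (edart c d (i + 1)) = prev c (rev (edart c d i)) := by
  rw [er_succ]
  exact rev_next c (edart_cut hd.1 i) ((emul_spec h hd).2.2 i h1 h2)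

private theorem er_edart {c : V → ι} {o : ι} {n : ℕ} (h : OutBox c o n) {d : V × Fin 6}
    (hd : IsCorner c d) {j : ℕ} (h1 : 1 ≤ j) (h2 : j ≤ emul c d) :
    edart c (eopp c d) j = rev (edart c d (emul c d + 1 - j)) := by
  induction j, h1 using Nat.le_induction with
  | base =>
    rw [er_one, eopp, er_es, next_prev c ((isCut_rev c _).2 (edart_cut hd.1 (emul c d)))]
    rfl
  | succ j hj ih =>
    have h3 : emul c d + 1 - j = (emul c d + 1 - (j + 1)) + 1 := by omega
    rw [er_succ, ih (by omega), h3,
      er_step h hd (by omega : 1 ≤ emul c d + 1 - (j + 1)) (by omega),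
      next_prev c ((isCut_rev c _).2 (edart_cut hd.1 _))]

private theorem er_corner_rev {c : V → ι} {d : V × Fin 6} (hd : IsCorner c d) :
    IsCorner c (rev (next c d)) := by
  have h1 := (isCorner_rot c (tip d, d.2 + 2)).2 ((isCorner_rot c d).2 hd)
  have h2 : rev (next c d) = (tip ((tip d, d.2 + 2) : V × Fin 6), ((tip d, d.2 + 2) : V × Fin 6).2 + 2) := by
    rw [next_corner c hd]
    obtain ⟨x, k⟩ := d
    have h3 : ∀ k : Fin 6, dir (k + 1) = dir k + dir (k + 2) := by decide
    have h4 : ∀ k : Fin 6, k + 1 + 3 = k + 2 + 2 := by decide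
    simp only [rev, tip]
    rw [h3 k, h4 k, ← add_assoc x]
  rw [h2]
  exact h1

private theorem er_opp_corner {c : V → ι} {o : ι} {n : ℕ} (h : OutBox c o n) {d : V × Fin 6}
    (hd : IsCorner c d) : IsCorner c (eopp c d) := by
  have h1 := (emul_spec h hd).2.1
  exact (isCorner_prev_rev c h1.1).2 h1

private theorem er_emul {c : V → ι} {o : ι} {n : ℕ} (h : OutBox c o n) {d : V × Fin 6}
    (hd : IsCorner c d) : emul c (eopp c d) = emul c d := by
  have hm := (emul_spec h hd).1
  have hd' := er_opp_corner h hd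
  obtain ⟨s1, s2, s3⟩ := emul_spec h hd'
  have hB : IsCorner c (edart c (eopp c d) (emul c d)) := by
    rw [er_edart h hd hm le_rfl]
    have : emul c d + 1 - emul c d = 1 := by omega
    rw [this, er_one]
    exact er_corner_rev hd
  have hC : ∀ j, 1 ≤ j → j < emul c d → ¬ IsCorner c (edart c (eopp c d) j) := by
    intro j h1 h2
    have h3 : emul c d + 1 - j = (emul c d - j) + 1 := by omega
    rw [er_edart h hd h1 h2.le, h3, er_step h hd (by omega) (by omega),
      isCorner_prev_rev c (edart_cut hd.1 _)]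
    exact (emul_spec h hd).2.2 _ (by omega) (by omega)
  rcases lt_trichotomy (emul c (eopp c d)) (emul c d) with hlt | heq | hgt
  · exact absurd s2 (hC _ s1 hlt)
  · exact heq
  · exact absurd hB (s3 _ hm hgt)

private theorem er_es_opp {c : V → ι} {o : ι} {n : ℕ} (h : OutBox c o n) {d : V × Fin 6}
    (hd : IsCorner c d) : es c (eopp c d) = rev (next c d) := by
  have hm := (emul_spec h hd).1
  rw [er_es, er_emul h hd, er_edart h hd hm le_rfl]
  have : emul c d + 1 - emul c d = 1 := by omega
  rw [this, er_one]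

theorem eopp_corner {c : V → ι} {o : ι} {n : ℕ} (h : OutBox c o n) {d : V × Fin 6}
    (hd : IsCorner c d) : IsCorner c (eopp c d) ∧ c (eopp c d).1 = enb c d ∧
      enb c (eopp c d) = c d.1 ∧ emul c (eopp c d) = emul c d := by
  have hm := (emul_spec h hd).1
  refine ⟨er_opp_corner h hd, ?_, ?_, er_emul h hd⟩
  · rw [eopp, class_prev c]
    exact tip_class h hd hm le_rfl
  · have h1 := er_edart h hd le_rfl hm
    rw [er_one] at h1
    rw [enb, h1, tip_rev]
    exact edart_class c d _

theorem eopp_eopp {c : V → ι} {o : ι} {n : ℕ} (h : OutBox c o n) {d : V × Fin 6}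
    (hd : IsCorner c d) : eopp c (eopp c d) = d := by
  rw [eopp, er_es_opp h hd, rev_rev, prev_next c hd.1]

private theorem er_reflect (m : ℕ) (f : ℕ → ℝ) :
    ∑ j ∈ Icc 1 m, f (m + 1 - j) = ∑ j ∈ Icc 1 m, f j := by
  refine Finset.sum_nbij' (fun j => m + 1 - j) (fun j => m + 1 - j) ?_ ?_ ?_ ?_ ?_
  · intro j hj
    rw [mem_Icc] at hj ⊢
    omega
  · intro j hj
    rw [mem_Icc] at hj ⊢
    omega
  · intro j hj
    rw [mem_Icc] at hj
    show m + 1 - (m + 1 - j) = j
    omega
  · intro j hj
    rw [mem_Icc] at hj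
    show m + 1 - (m + 1 - j) = j
    omega
  · intro j _
    rfl

theorem elen_eopp (G : Net) {c : V → ι} {o : ι} {n : ℕ} (h : OutBox c o n) {d : V × Fin 6}
    (hd : IsCorner c d) : elen G c (eopp c d) = elen G c d := by
  unfold elen
  rw [er_emul h hd, ← er_reflect (emul c d) (fun j => G.w (edart c d j))]
  refine Finset.sum_congr rfl fun j hj => ?_
  rw [mem_Icc] at hj
  rw [er_edart h hd hj.1 hj.2, w_rev]

private theorem er_zl_opp (G : Net) {c : V → ι} {o : ι} {n : ℕ} (h : OutBox c o n)
    {d : V × Fin 6} (hd : IsCorner c d) : G.zl (eopp c d) = G.zl (es c d) := by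
  rw [eopp]
  exact zl_prev_rev G c (emul_spec h hd).2.1.1

private theorem er_zl_es_opp (G : Net) {c : V → ι} {o : ι} {n : ℕ} (h : OutBox c o n)
    {d : V × Fin 6} (hd : IsCorner c d) : G.zl (es c (eopp c d)) = G.zl d := by
  rw [er_es_opp h hd, zl_rev, zr_next]

theorem echd_eopp (G : Net) {c : V → ι} {o : ι} {n : ℕ} (h : OutBox c o n) {d : V × Fin 6}
    (hd : IsCorner c d) : echd G c (eopp c d) = echd G c d := by
  unfold echd
  rw [er_zl_opp G h hd, er_zl_es_opp G h hd, norm_sub_rev]

theorem ebul_eopp (G : Net) {c : V → ι} {o : ι} {n : ℕ} (h : OutBox c o n) {d : V × Fin 6}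
    (hd : IsCorner c d) : ebul G c (eopp c d) = - ebul G c d := by
  have h1 : ∑ j ∈ Icc 1 (emul c (eopp c d)), G.et (edart c (eopp c d) j) =
      - ∑ j ∈ Icc 1 (emul c d), G.et (edart c d j) := by
    rw [er_emul h hd, ← er_reflect (emul c d) (fun j => G.et (edart c d j)),
      ← Finset.sum_neg_distrib]
    refine Finset.sum_congr rfl fun j hj => ?_
    rw [mem_Icc] at hj
    rw [er_edart h hd hj.1 hj.2, et_rev]
  have h2 : cr (G.zl (es c d)) (G.zl d) = - cr (G.zl d) (G.zl (es c d)) := by
    unfold cr
    ring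
  unfold ebul
  rw [h1, er_zl_opp G h hd, er_zl_es_opp G h hd, h2]
  ring

theorem enb_ne {c : V → ι} {d : V × Fin 6} (hd : IsCorner c d) : enb c d ≠ c d.1 := by
  have h1 := isCut_next c hd.1
  unfold IsCut at h1
  rw [class_next c] at h1
  exact fun h2 => h1 h2.symm

theorem enb_es_ne {c : V → ι} {o : ι} {n : ℕ} (h : OutBox c o n) {d : V × Fin 6}
    (hd : IsCorner c d) : enb c (es c d) ≠ enb c d := by
  obtain ⟨h1, h2, _⟩ := emul_spec h hd
  have h3 : c (tip (es c d)) = enb c d := tip_class h hd h1 le_rfl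
  have h4 : enb c (es c d) = c (third (es c d)) := by
    rw [enb, next_corner c h2]
    rfl
  rw [h4, ← h3]
  exact h2.2.2

theorem cut_ge (G : Net) {c : V → ι} {o : ι} {n : ℕ} (h : OutBox c o n) {d : V × Fin 6}
    (hd : IsCorner c d) : elen G c d ≤ cut G c n (c d.1) (enb c d) := by
  have key : ∀ j j', 1 ≤ j → j < j' → j' ≤ emul c d → edart c d j ≠ edart c d j' := by
    intro j j' h1 h2 h3 heq
    have h4 : (prev c)^[j] (edart c d (j + 0)) = edart c d 0 := er_prev_iter hd.1 j 0
    have h5 : (prev c)^[j] (edart c d (j + (j' - j))) = edart c d (j' - j) :=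
      er_prev_iter hd.1 j (j' - j)
    have h6 : j + (j' - j) = j' := by omega
    rw [h6, ← heq] at h5
    rw [Nat.add_zero, h5] at h4
    have h7 := (emul_spec h hd).2.2 (j' - j) (by omega) (by omega)
    rw [h4] at h7
    exact h7 hd
  have hinj : Set.InjOn (edart c d) (Icc 1 (emul c d) : Set ℕ) := by
    intro j hj j' hj' heq
    rw [Finset.coe_Icc, Set.mem_Icc] at hj hj'
    rcases lt_trichotomy j j' with hlt | he | hgt
    · exact absurd heq (key j j' hj.1 hlt hj'.2)
    · exact he
    · exact absurd heq.symm (key j' j hj'.1 hgt hj.2)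
  unfold elen cut
  rw [← Finset.sum_image (f := fun x => G.w x) hinj]
  refine Finset.sum_le_sum_of_subset_of_nonneg ?_ (fun x _ _ => w_nonneg G x)
  intro x hx
  rw [mem_image] at hx
  obtain ⟨j, hj, rfl⟩ := hx
  rw [mem_Icc] at hj
  rw [mem_filter]
  exact ⟨(mem_darts h _).2 (edart_cut hd.1 j), edart_class c d j, tip_class h hd hj.1 hj.2⟩

/-- A class has at least twice as many edges as edges with the class `o` on the other side. -/
theorem two_outer_le {c : V → ι} {o : ι} {n : ℕ} (h : OutBox c o n) (i : ι) :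
    2 * ((corners c n i).filter fun d => enb c d = o).card ≤ (corners c n i).card := by
  classical
  set A := (corners c n i).filter fun d => enb c d = o with hA
  have hb := es_bij h i
  have hinj : Set.InjOn (es c) (A : Set (V × Fin 6)) := by
    refine hb.injOn.mono ?_
    intro x hx
    rw [Finset.mem_coe] at hx ⊢
    exact (mem_filter.1 hx).1
  have h1 : (A.image (es c)).card = A.card := Finset.card_image_of_injOn hinj
  have h2 : Disjoint A (A.image (es c)) := by
    rw [Finset.disjoint_left]
    intro x hx hx'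
    rw [mem_image] at hx'
    obtain ⟨y, hy, rfl⟩ := hx'
    rw [hA, mem_filter] at hx hy
    have h3 := ((mem_corners h i y).1 hy.1).1
    apply enb_es_ne h h3
    rw [hx.2, hy.2]
  have h3 : A ∪ A.image (es c) ⊆ corners c n i := by
    intro x hx
    rw [mem_union] at hx
    rcases hx with hx | hx
    · exact (mem_filter.1 hx).1
    · rw [mem_image] at hx
      obtain ⟨y, hy, rfl⟩ := hx
      exact es_mem h (mem_filter.1 hy).1
  have h4 := Finset.card_le_card h3
  rw [Finset.card_union_of_disjoint h2, h1] at h4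
  omega

end Pool.Agent.Helper98.LC
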