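import Pool.Agent.Helper98.LC.B.EulerGen

/-!
# LC-B08: a connected finite set has Euler characteristic at most one

Apply `euler_gen` to `W` = the functions `t` on darts, invariant under `(x,k) ↦ (x + dir k, k + 2)`, which vanish at all
darts not in `dTwo S`.  (`hout`: if `x` or `x + dir k` is not in `S` then neither the left nor the right triangle of `(x,k)` is in
`S`, so both values are `0`.  `hconst`: `S` is finite, so `t` vanishes somewhere.)
`3 * finrank W = |dTwo S|`: every orbit of `rot (x,k) = (x + dir k, k + 2)` on `dTwo S` has three elements, exactly one of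
which has `k ∈ {0, 1}` (`k, k + 2, k + 4`); so `W` is isomorphic to the functions on `{d ∈ dTwo S | d.2 ∈ {0,1}}`.
Only `3 * finrank W ≥ |dTwo S|` is needed: the indicator functions of the orbits of the elements
with `d.2 ∈ {0, 1}` are linearly independent elements of `W`.
Then `2 (|dTwo S| / 3 + |S|) ≤ |dOne S| + 2`, i.e. `6 |S| - 3 |dOne S| + 2 |dTwo S| ≤ 6`.
-/

namespace Pool.Agent.Helper98.LC

open Finset

private def rot (d : V × Fin 6) : V × Fin 6 := (tip d, d.2 + 2)

private lemma dir_two (k : Fin 6) : dir k + dir (k + 2) = dir (k + 1) := by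
  fin_cases k <;> rfl

private lemma dir_three (k : Fin 6) : dir k + dir (k + 3) = 0 := by
  fin_cases k <;> rfl

private lemma tip_rot (d : V × Fin 6) : tip (rot d) = third d := by
  unfold tip rot tip third
  rw [add_assoc, dir_two]

private lemma third_rot (d : V × Fin 6) : third (rot d) = d.1 := by
  unfold third rot tip
  have : d.2 + 2 + 1 = d.2 + 3 := by rw [add_assoc]; rfl
  simp only
  rw [this, add_assoc, dir_three, add_zero]

private lemma rot_rot_rot (d : V × Fin 6) : rot (rot (rot d)) = d := by
  have h1 : (rot (rot (rot d))).1 = d.1 := by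
    change tip (rot (rot d)) = d.1
    rw [tip_rot, third_rot]
  have h2 : (rot (rot (rot d))).2 = d.2 := by
    change d.2 + 2 + 2 + 2 = d.2
    generalize d.2 = k
    fin_cases k <;> rfl
  exact Prod.ext h1 h2

private lemma mem_dTwo (S : Finset V) (d : V × Fin 6) :
    d ∈ dTwo S ↔ d.1 ∈ S ∧ tip d ∈ S ∧ third d ∈ S := by
  unfold dTwo
  rw [Finset.mem_filter, Finset.mem_product]
  simp

private lemma rot_mem (S : Finset V) (d : V × Fin 6) : rot d ∈ dTwo S ↔ d ∈ dTwo S := by
  rw [mem_dTwo, mem_dTwo, tip_rot, third_rot]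
  change tip d ∈ S ∧ _ ↔ _
  tauto

private def rep (d : V × Fin 6) : V × Fin 6 :=
  if d.2.val < 2 then d else if d.2.val < 4 then rot (rot d) else rot d

private lemma rot_snd (d : V × Fin 6) : (rot d).2 = d.2 + 2 := rfl

private lemma rep_lt (d : V × Fin 6) : (rep d).2.val < 2 := by
  obtain ⟨x, k⟩ := d
  unfold rep
  fin_cases k <;> simp [rot_snd]

private lemma rep_rot (d : V × Fin 6) : rep (rot d) = rep d := by
  have h3 := rot_rot_rot d
  have hk : (rot d).2 = d.2 + 2 := rfl
  unfold rep
  rw [hk, h3]
  generalize d.2 = k at *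
  fin_cases k <;> simp

private lemma rep_of_lt (d : V × Fin 6) (h : d.2.val < 2) : rep d = d := by
  unfold rep
  rw [if_pos h]

private lemma rep_mem (S : Finset V) (d : V × Fin 6) : rep d ∈ dTwo S ↔ d ∈ dTwo S := by
  unfold rep
  split_ifs
  · rfl
  · rw [rot_mem, rot_mem]
  · rw [rot_mem]

private lemma rep_fib (d a : V × Fin 6) (h : rep d = a) : d = a ∨ d = rot a ∨ d = rot (rot a) := by
  unfold rep at h
  split_ifs at h
  · exact Or.inl h
  · right; left; rw [← h, rot_rot_rot]
  · right; right; rw [← h, rot_rot_rot]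

theorem chi6_le (S : Finset V) (hne : S.Nonempty) (hc : ConnSet S) : chi6 S ≤ 6 := by
  classical
  let W : Submodule (ZMod 2) (V → Fin 6 → ZMod 2) :=
    { carrier := {t | (∀ x k, t (x + dir k) (k + 2) = t x k) ∧ ∀ x k, (x, k) ∉ dTwo S → t x k = 0}
      add_mem' := by
        rintro a b ⟨ha1, ha2⟩ ⟨hb1, hb2⟩
        refine ⟨fun x k => ?_, fun x k h => ?_⟩
        · simp only [Pi.add_apply, ha1 x k, hb1 x k]
        · simp only [Pi.add_apply, ha2 x k h, hb2 x k h, add_zero]
      zero_mem' := ⟨fun _ _ => rfl, fun _ _ _ => rfl⟩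
      smul_mem' := by
        rintro r a ⟨ha1, ha2⟩
        refine ⟨fun x k => ?_, fun x k h => ?_⟩
        · simp only [Pi.smul_apply, ha1 x k]
        · simp only [Pi.smul_apply, ha2 x k h, smul_zero] }
  have hW : ∀ t, t ∈ W ↔ (∀ x k, t (x + dir k) (k + 2) = t x k) ∧ ∀ x k, (x, k) ∉ dTwo S → t x k = 0 :=
    fun t => Iff.rfl
  have h1 := euler_gen S hne hc W (fun t ht => ((hW t).1 ht).1)
    (by
      intro t ht x k hxk
      have ht2 := ((hW t).1 ht).2
      rw [ht2 x k (by rw [mem_dTwo]; intro h; exact hxk ⟨h.1, h.2.1⟩),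
        ht2 x (k - 1) (by
          rw [mem_dTwo]
          intro h
          apply hxk
          refine ⟨h.1, ?_⟩
          have h3 := h.2.2
          unfold third at h3
          simpa using h3)])
    (by
      intro t ht hcst
      have ht2 := ((hW t).1 ht).2
      obtain ⟨x, hx⟩ := Infinite.exists_notMem_finset S
      have h0 : t 0 0 = 0 := by
        rw [← hcst x 0]
        exact ht2 x 0 (by rw [mem_dTwo]; intro h; exact hx h.1)
      funext x k
      rw [hcst x k, h0]
      rfl)
  let R : W →ₗ[ZMod 2] (↥(dTwo S) → ZMod 2) :=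
    { toFun := fun t d => t.1 d.1.1 d.1.2
      map_add' := fun _ _ => rfl
      map_smul' := fun _ _ => rfl }
  have hR : Function.Injective R := by
    rw [injective_iff_map_eq_zero]
    intro t ht
    apply Subtype.ext
    funext x k
    by_cases hxk : (x, k) ∈ dTwo S
    · exact congrFun ht ⟨(x, k), hxk⟩
    · exact ((hW t.1).1 t.2).2 x k hxk
  have : Module.Finite (ZMod 2) W := Module.Finite.of_injective R hR
  set D0 : Finset (V × Fin 6) := (dTwo S).filter fun d => d.2.val < 2 with hD0
  let G : (D0 → ZMod 2) → (V × Fin 6) → ZMod 2 := fun g a => if h : a ∈ D0 then g ⟨a, h⟩ else 0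
  let Φ : (D0 → ZMod 2) →ₗ[ZMod 2] W :=
    { toFun := fun g => ⟨fun x k => G g (rep (x, k)), by
        rw [hW]
        refine ⟨fun x k => ?_, fun x k h => ?_⟩
        · change G g (rep (rot (x, k))) = _
          rw [rep_rot]
        · change G g (rep (x, k)) = 0
          have : rep (x, k) ∉ D0 := by
            rw [hD0, Finset.mem_filter, rep_mem]
            intro h2
            exact h h2.1
          simp only [G, dif_neg this]⟩
      map_add' := by
        intro g g'
        apply Subtype.ext
        funext x k
        change G (g + g') _ = G g _ + G g' _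
        by_cases h : rep (x, k) ∈ D0
        · simp only [G, dif_pos h, Pi.add_apply]
        · simp only [G, dif_neg h, add_zero]
      map_smul' := by
        intro r g
        apply Subtype.ext
        funext x k
        change G (r • g) _ = r • G g _
        by_cases h : rep (x, k) ∈ D0
        · simp only [G, dif_pos h, Pi.smul_apply]
        · simp only [G, dif_neg h, smul_zero] }
  have hΦ : Function.Injective Φ := by
    rw [injective_iff_map_eq_zero]
    intro g hg
    funext a
    have h2 : (Φ g).1 a.1.1 a.1.2 = 0 := by rw [hg]; rfl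
    have ha := a.2
    change G g (rep (a.1.1, a.1.2)) = 0 at h2
    have hrep : rep (a.1.1, a.1.2) = a.1 := by
      apply rep_of_lt
      exact (Finset.mem_filter.1 ha).2
    rw [hrep] at h2
    simp only [G, dif_pos a.2] at h2
    exact h2
  have h2 : D0.card ≤ Module.finrank (ZMod 2) W := by
    have := LinearMap.finrank_le_finrank_of_injective hΦ
    rwa [Module.finrank_fintype_fun_eq_card, Fintype.card_coe] at this
  have h3 : (dTwo S).card ≤ 3 * D0.card := by
    have h4 := Finset.card_le_mul_card_image (f := rep) (dTwo S) 3 (fun a _ => by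
      have : ((dTwo S).filter fun d => rep d = a) ⊆ {a, rot a, rot (rot a)} := by
        intro d hd
        rw [Finset.mem_filter] at hd
        rcases rep_fib d a hd.2 with h | h | h <;> simp [h]
      exact (Finset.card_le_card this).trans Finset.card_le_three)
    refine h4.trans (Nat.mul_le_mul_left _ (Finset.card_le_card ?_))
    intro a ha
    obtain ⟨d, hd, rfl⟩ := Finset.mem_image.1 ha
    rw [hD0, Finset.mem_filter, rep_mem]
    exact ⟨hd, rep_lt d⟩
  unfold chi6
  omega

end Pool.Agent.Helper98.LC
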