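import Pool.Agent.Helper98.LC.B.EulerGen

/-!
# LC-B09: a connected subset of the box which contains the boundary of the box, but not everything,
has Euler characteristic at most zero

Apply `euler_gen` to `W` = the functions `t` on darts, invariant under `(x,k) ↦ (x + dir k, k + 2)`, such that for some
constant `a` : `t x k = a` if the left triangle of `(x,k)` is not contained in `box N`, `t x k = 0` if it is contained in `box N` but
not in `S`.  `hout`: let not both `x, x + dir k` be in `S`.  If both are in `box N`, then one of them is in `box N` minus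
the boundary ring, i.e. in `box (N-1)` (here `hring`), so all its neighbours are in `box N`: both triangles at the edge are contained
in `box N`, not in `S`: values `0, 0`.  If one of the ends is outside `box N`, both triangles are not contained in
`box N`: values `a, a`.  `hconst`: some vertex `y` of `box N` is not in `S`, hence in `box (N - 1)` and `(y, 0)` has
its left triangle in `box N`, not in `S`: `t y 0 = 0`.
`3 (finrank W - 1) ≥ |dTwo S|`: the indicator functions of the `rot`-orbits of the elements of `dTwo S` with `d.2 ∈ {0,1}`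
(see LC-B08, `EulerIn`) and the indicator function of the set of the darts whose left triangle is not contained in `box N` are
linearly independent elements of `W`.  [Disjoint nonempty supports.]
Then `2 (|dTwo S| / 3 + 1 + |S|) ≤ |dOne S| + 2`.
-/

namespace Pool.Agent.Helper98.LC

open Finset

namespace EulerOut

private theorem dd2 (k : Fin 6) : dir k + dir (k + 2) = dir (k + 1) := by
  revert k; decide

private theorem dd3 (k : Fin 6) : dir k + dir (k + 3) = 0 := by
  revert k; decide

private theorem dd5 (k : Fin 6) : dir k + dir (k - 2) = dir (k - 1) := by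
  revert k; decide

private theorem k3 (k : Fin 6) : k + 2 + 1 = k + 3 := by
  revert k; decide

private theorem k6 (k : Fin 6) : k + 2 + 2 + 2 = k := by
  revert k; decide

private theorem kp (k : Fin 6) : k - 1 + 1 = k := by
  revert k; decide

private theorem dd6 (k : Fin 6) : dir k + (dir (k + 2) + dir (k + 2 + 2)) = 0 := by
  revert k; decide

/-- rotation of a dart around its left triangle -/
def rot (d : V × Fin 6) : V × Fin 6 := (d.1 + dir d.2, d.2 + 2)

theorem rot3 (d : V × Fin 6) : rot (rot (rot d)) = d := by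
  obtain ⟨x, k⟩ := d
  unfold rot
  simp only
  rw [k6, add_assoc, add_assoc, dd6, add_zero]

/-- The left triangle of the dart is contained in `B`. -/
def Tri (B : Finset V) (d : V × Fin 6) : Prop :=
  d.1 ∈ B ∧ d.1 + dir d.2 ∈ B ∧ d.1 + dir (d.2 + 1) ∈ B

instance (B : Finset V) (d : V × Fin 6) : Decidable (Tri B d) := by unfold Tri; infer_instance

theorem tri_rot (B : Finset V) (d : V × Fin 6) : Tri B (rot d) ↔ Tri B d := by
  obtain ⟨x, k⟩ := d
  unfold Tri rot
  simp only
  rw [k3, add_assoc, dd2, add_assoc, dd3, add_zero]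
  tauto

theorem tri_iff (S : Finset V) (d : V × Fin 6) : d ∈ dTwo S ↔ Tri S d := by
  obtain ⟨x, k⟩ := d
  unfold dTwo Tri tip third
  simp

/-- the representatives of the triangles -/
def T0 (S : Finset V) : Finset (V × Fin 6) := (dTwo S).filter fun d => d.2 = 0 ∨ d.2 = 1

theorem T0_tri {S : Finset V} {d : V × Fin 6} (h : d ∈ T0 S) : Tri S d :=
  (tri_iff S d).1 (mem_filter.1 h).1

theorem card_le (S : Finset V) : (dTwo S).card ≤ 3 * (T0 S).card := by
  have h : dTwo S ⊆ T0 S ∪ ((T0 S).image rot ∪ (T0 S).image (fun d => rot (rot d))) := by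
    intro d hd
    have h1 := (tri_iff S d).1 hd
    have hr : rot d ∈ dTwo S := (tri_iff S _).2 ((tri_rot S d).2 h1)
    have hrr : rot (rot d) ∈ dTwo S := (tri_iff S _).2 ((tri_rot S _).2 ((tri_rot S d).2 h1))
    have hk : (d.2 = 0 ∨ d.2 = 1) ∨ ((rot (rot d)).2 = 0 ∨ (rot (rot d)).2 = 1) ∨
        ((rot d).2 = 0 ∨ (rot d).2 = 1) := by
      obtain ⟨x, k⟩ := d
      unfold rot
      simp only
      clear h1 hr hrr hd
      revert k
      decide
    rcases hk with hk | hk | hk
    · exact mem_union_left _ (mem_filter.2 ⟨hd, hk⟩)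
    · refine mem_union_right _ (mem_union_left _ (mem_image.2 ⟨_, mem_filter.2 ⟨hrr, hk⟩, ?_⟩))
      exact rot3 d
    · refine mem_union_right _ (mem_union_right _ (mem_image.2 ⟨_, mem_filter.2 ⟨hr, hk⟩, ?_⟩))
      exact rot3 d
  calc (dTwo S).card ≤ _ := card_le_card h
    _ ≤ (T0 S).card + ((T0 S).card + (T0 S).card) := by
        refine (card_union_le _ _).trans (Nat.add_le_add_left ?_ _)
        exact (card_union_le _ _).trans (Nat.add_le_add card_image_le card_image_le)
    _ = 3 * (T0 S).card := by ring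

/-- extension by zero -/
def g0 {S : Finset V} (g : T0 S → ZMod 2) (d : V × Fin 6) : ZMod 2 :=
  if h : d ∈ T0 S then g ⟨d, h⟩ else 0

theorem g0_add {S : Finset V} (g h : T0 S → ZMod 2) (d : V × Fin 6) :
    g0 (g + h) d = g0 g d + g0 h d := by
  unfold g0
  split_ifs
  · rfl
  · simp

theorem g0_smul {S : Finset V} (c : ZMod 2) (g : T0 S → ZMod 2) (d : V × Fin 6) :
    g0 (c • g) d = c * g0 g d := by
  unfold g0
  split_ifs
  · rfl
  · simp

theorem g0_not {S : Finset V} (g : T0 S → ZMod 2) {d : V × Fin 6} (h : ¬ Tri S d) : g0 g d = 0 := by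
  unfold g0
  rw [dif_neg (fun h' => h (T0_tri h'))]

/-- the sum over the orbit -/
def gs {S : Finset V} (g : T0 S → ZMod 2) (d : V × Fin 6) : ZMod 2 :=
  g0 g d + g0 g (rot d) + g0 g (rot (rot d))

theorem gs_rot {S : Finset V} (g : T0 S → ZMod 2) (d : V × Fin 6) : gs g (rot d) = gs g d := by
  unfold gs
  rw [rot3]
  ring

theorem gs_not {S : Finset V} (g : T0 S → ZMod 2) {d : V × Fin 6} (h : ¬ Tri S d) : gs g d = 0 := by
  unfold gs
  rw [g0_not g h, g0_not g (fun h' => h ((tri_rot S d).1 h')),
    g0_not g (fun h' => h ((tri_rot S d).1 ((tri_rot S _).1 h')))]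
  simp

theorem gs_mem {S : Finset V} (g : T0 S → ZMod 2) (d : T0 S) : gs g d = g d := by
  obtain ⟨⟨x, k⟩, hd⟩ := d
  have hk : k = 0 ∨ k = 1 := (mem_filter.1 hd).2
  have h1 : rot (x, k) ∉ T0 S := by
    intro h
    have h2 : k + 2 = 0 ∨ k + 2 = 1 := (mem_filter.1 h).2
    clear h hd
    revert k
    decide
  have h2 : rot (rot (x, k)) ∉ T0 S := by
    intro h
    have h2 : k + 2 + 2 = 0 ∨ k + 2 + 2 = 1 := (mem_filter.1 h).2
    clear h hd h1
    revert k
    decide
  unfold gs g0
  rw [dif_pos hd, dif_neg h1, dif_neg h2]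
  simp

/-- the parametrization of the space of functions -/
def Phi (B S : Finset V) : ((T0 S → ZMod 2) × ZMod 2) →ₗ[ZMod 2] (V → Fin 6 → ZMod 2) where
  toFun p := fun x k => (if Tri B (x, k) then 0 else p.2) + gs p.1 (x, k)
  map_add' p q := by
    funext x k
    simp only [Prod.fst_add, Prod.snd_add, Pi.add_apply, gs, g0_add]
    split_ifs <;> ring
  map_smul' c p := by
    funext x k
    simp only [Prod.smul_fst, Prod.smul_snd, Pi.smul_apply, gs, g0_smul, smul_eq_mul, RingHom.id_apply]
    split_ifs <;> ring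

theorem Phi_apply (B S : Finset V) (p : (T0 S → ZMod 2) × ZMod 2) (x : V) (k : Fin 6) :
    Phi B S p x k = (if Tri B (x, k) then 0 else p.2) + gs p.1 (x, k) := rfl

theorem mem_box (n : ℕ) (x : V) :
    x ∈ box n ↔ (-(n : ℤ) ≤ x.1 ∧ x.1 ≤ n) ∧ (-(n : ℤ) ≤ x.2 ∧ x.2 ≤ n) := by
  unfold box
  rw [mem_product, mem_Icc, mem_Icc]

theorem box_nb (n : ℕ) (x : V) (h : x ∈ box n) (k : Fin 6) : x + dir k ∈ box (n + 1) := by
  rw [mem_box] at h ⊢
  obtain ⟨a, b⟩ := x
  simp only at h
  fin_cases k <;> simp [dir] <;> omega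

theorem box_mono (n : ℕ) (x : V) (h : x ∈ box n) : x ∈ box (n + 1) := by
  rw [mem_box] at h ⊢
  push_cast
  omega

end EulerOut

open EulerOut

theorem chi6_outer_le (N : ℕ) (S : Finset V) (hS : S ⊆ box (N + 1))
    (hring : ∀ x ∈ box (N + 1), x ∉ box N → x ∈ S) (hne : S ≠ box (N + 1)) (hc : ConnSet S) :
    chi6 S ≤ 0 := by
  have hSne : S.Nonempty := by
    refine ⟨((N : ℤ) + 1, 0), hring _ ?_ ?_⟩
    · rw [mem_box]
      push_cast
      refine ⟨⟨by omega, by omega⟩, by omega, by omega⟩
    · rw [mem_box]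
      intro h
      have := h.1.2
      simp only at this
      omega
  have hin : ∀ y ∈ box (N + 1), y ∉ S → y ∈ box N := by
    intro y hy hyS
    by_contra h
    exact hyS (hring y hy h)
  obtain ⟨y, hyB, hyS⟩ : ∃ y ∈ box (N + 1), y ∉ S := by
    by_contra h
    push Not at h
    exact hne (Subset.antisymm hS h)
  have hinj : Function.Injective (Phi (box (N + 1)) S) := by
    rw [← LinearMap.ker_eq_bot, LinearMap.ker_eq_bot']
    rintro ⟨g, a⟩ hp
    have h1 : ∀ x k, (if Tri (box (N + 1)) (x, k) then 0 else a) + gs g (x, k) = 0 := by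
      intro x k
      have := congrFun (congrFun hp x) k
      exact this
    have ha : a = 0 := by
      have h2 : ((N : ℤ) + 2, (0 : ℤ)) ∉ box (N + 1) := by
        rw [mem_box]
        intro h
        have := h.1.2
        simp only at this
        push_cast at this
        omega
      have h3 : ¬ Tri (box (N + 1)) (((N : ℤ) + 2, (0 : ℤ)), 0) := fun h => h2 h.1
      have h4 : ¬ Tri S (((N : ℤ) + 2, (0 : ℤ)), 0) := fun h => h2 (hS h.1)
      have h5 := h1 ((N : ℤ) + 2, (0 : ℤ)) 0
      rw [if_neg h3, gs_not g h4, add_zero] at h5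
      exact h5
    have hg : g = 0 := by
      funext d
      have h2 := gs_mem g d
      have h3 := h1 d.1.1 d.1.2
      rw [ha] at h3
      have h4 : gs g d.1 = 0 := by
        have h5 : ((d.1.1, d.1.2) : V × Fin 6) = d.1 := rfl
        rw [h5] at h3
        simpa using h3
      rw [← h2, h4]
      rfl
    rw [hg, ha]
    rfl
  have hrank : Module.finrank (ZMod 2) (LinearMap.range (Phi (box (N + 1)) S)) = (T0 S).card + 1 := by
    rw [LinearMap.finrank_range_of_inj hinj, Module.finrank_prod, Module.finrank_fintype_fun_eq_card,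
      Module.finrank_self, Fintype.card_coe]
  have key := euler_gen S hSne hc (LinearMap.range (Phi (box (N + 1)) S)) ?_ ?_ ?_
  · rw [hrank] at key
    have h1 := card_le S
    unfold chi6
    omega
  · rintro t ⟨p, rfl⟩ x k
    rw [Phi_apply, Phi_apply]
    have e : ((x + dir k, k + 2) : V × Fin 6) = rot (x, k) := rfl
    rw [e, gs_rot]
    congr 1
    have h := tri_rot (box (N + 1)) (x, k)
    by_cases h1 : Tri (box (N + 1)) (x, k)
    · rw [if_pos h1, if_pos (h.2 h1)]
    · rw [if_neg h1, if_neg (fun h2 => h1 (h.1 h2))]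
  · rintro t ⟨p, rfl⟩ x k hxk
    rw [Phi_apply, Phi_apply, gs_not, gs_not]
    · congr 1
      by_cases hb : x ∈ box (N + 1) ∧ x + dir k ∈ box (N + 1)
      · have h2 : Tri (box (N + 1)) (x, k) ∧ Tri (box (N + 1)) (x, k - 1) := by
          unfold Tri
          simp only
          rw [kp]
          have h3 : x ∈ box N ∨ x + dir k ∈ box N := by
            by_cases hx : x ∈ S
            · exact Or.inr (hin _ hb.2 (fun h => hxk ⟨hx, h⟩))
            · exact Or.inl (hin _ hb.1 hx)
          have h4 : x + dir (k + 1) ∈ box (N + 1) ∧ x + dir (k - 1) ∈ box (N + 1) := by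
            rcases h3 with h3 | h3
            · exact ⟨box_nb N x h3 _, box_nb N x h3 _⟩
            · have h5 := box_nb N _ h3 (k + 2)
              have h6 := box_nb N _ h3 (k - 2)
              rw [add_assoc, dd2] at h5
              rw [add_assoc, dd5] at h6
              exact ⟨h5, h6⟩
          exact ⟨⟨hb.1, hb.2, h4.1⟩, hb.1, h4.2, hb.2⟩
        rw [if_pos h2.1, if_pos h2.2]
      · have h2 : ¬ Tri (box (N + 1)) (x, k) := fun h => hb ⟨h.1, h.2.1⟩
        have h3 : ¬ Tri (box (N + 1)) (x, k - 1) := by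
          intro h
          apply hb
          have h4 := h.2.2
          simp only at h4
          rw [kp] at h4
          exact ⟨h.1, h4⟩
        rw [if_neg h2, if_neg h3]
    · intro h
      apply hxk
      have h4 := h.2.2
      simp only at h4
      rw [kp] at h4
      exact ⟨h.1, h4⟩
    · exact fun h => hxk ⟨h.1, h.2.1⟩
  · rintro t ⟨p, rfl⟩ hconst
    have h1 : Tri (box (N + 1)) (y, 0) :=
      ⟨hyB, box_nb N y (hin y hyB hyS) _, box_nb N y (hin y hyB hyS) _⟩
    have h2 : ¬ Tri S (y, 0) := fun h => hyS h.1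
    have h3 : Phi (box (N + 1)) S p y 0 = 0 := by
      rw [Phi_apply, if_pos h1, gs_not _ h2, add_zero]
    funext x k
    rw [hconst x k, ← hconst y 0, h3]
    rfl

end Pool.Agent.Helper98.LC
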