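import Pool.Agent.Helper98.LC.B.EulerCount
import Pool.Agent.Helper98.LC.B.EulerIn
import Pool.Agent.Helper98.LC.B.EulerOut
import Pool.Agent.Helper98.LC.B.ConnBox

/-!
# LC-B11: the Euler inequality

`6 + ∑ i, n_i = ∑ i, chi6 (cls c (n+1) i)` (`sum_chi6`, `sum_corners`).  Empty classes have `chi6 = 0` and no corners.
Nonempty classes `i ≠ o`: `chi6 ≤ 6` (`chi6_le`, `connSet_cls`).  Class `o`: `chi6 ≤ 0` (`chi6_outer_le` with `N = n`; it contains
the ring because of `OutBox`, and it is not everything by `hx`).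
So `6 + n_o + ∑ (i ≠ o nonempty), n_i ≤ ∑ (i ≠ o nonempty), 6`.
-/

namespace Pool.Agent.Helper98.LC

open Finset

variable {ι : Type} [DecidableEq ι]

private theorem eu_mem_box (n : ℕ) (x : V) :
    x ∈ box n ↔ (-(n : ℤ) ≤ x.1 ∧ x.1 ≤ n) ∧ (-(n : ℤ) ≤ x.2 ∧ x.2 ≤ n) := by
  unfold box
  simp only [mem_product, mem_Icc]

open Classical in
theorem euler [Fintype ι] {c : V → ι} {o : ι} {n : ℕ} (h : OutBox c o n) (hc : Conn c)
    (hx : ∃ x, c x ≠ o) :
    6 + ((corners c n o).card : ℤ) ≤
      ∑ i ∈ univ.filter (fun i => i ≠ o ∧ ∃ x, c x = i), (6 - ((corners c n i).card : ℤ)) := by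
  have e1 := sum_chi6 h
  have e2 : ∑ i, ((corners c n i).card : ℤ) = ((allCorners c n).card : ℤ) := by
    rw [← Nat.cast_sum, sum_corners c n]
  -- the point
  obtain ⟨x0, hx0⟩ := hx
  have hx0b : x0 ∈ box n := by
    by_contra hcon
    exact hx0 (h x0 hcon)
  have sub : box n ⊆ box (n + 1) := by
    intro y hy
    rw [eu_mem_box] at hy ⊢
    push_cast
    omega
  -- outer class
  have ho : chi6 (cls c (n + 1) o) ≤ 0 := by
    apply chi6_outer_le n (cls c (n + 1) o)
    · exact filter_subset _ _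
    · intro x hx1 hx2
      exact mem_filter.mpr ⟨hx1, h x hx2⟩
    · intro hcon
      have h1 : x0 ∈ cls c (n + 1) o := by
        rw [hcon]
        exact sub hx0b
      exact hx0 (mem_filter.mp h1).2
    · exact connSet_cls h hc o
  -- inner classes
  have hin : ∀ i, i ≠ o → (∃ x, c x = i) → chi6 (cls c (n + 1) i) ≤ 6 := by
    rintro i hi ⟨x, hx⟩
    apply chi6_le _ _ (connSet_cls h hc i)
    have hxb : x ∈ box n := by
      by_contra hcon
      exact hi (hx ▸ h x hcon)
    exact ⟨x, mem_filter.mpr ⟨sub hxb, hx⟩⟩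
  -- empty classes
  have hem : ∀ i, (¬ ∃ x, c x = i) → chi6 (cls c (n + 1) i) = 0 ∧ (corners c n i).card = 0 := by
    intro i hi
    have h1 : cls c (n + 1) i = ∅ := by
      apply filter_eq_empty_iff.mpr
      intro x _ hx
      exact hi ⟨x, hx⟩
    have h2 : corners c n i = ∅ := by
      apply filter_eq_empty_iff.mpr
      intro d _ hd
      exact hi ⟨d.1, hd.2⟩
    rw [h1, h2]
    refine ⟨?_, card_empty⟩
    unfold chi6 dOne dTwo
    simp
  have key : ∀ i, chi6 (cls c (n + 1) i) - ((corners c n i).card : ℤ) ≤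
      (if i = o then - ((corners c n o).card : ℤ) else 0) +
      (if i ≠ o ∧ ∃ x, c x = i then (6 - ((corners c n i).card : ℤ)) else 0) := by
    intro i
    by_cases hi : i = o
    · subst hi
      simp only [if_true, ne_eq, not_true_eq_false, false_and, if_false]
      linarith
    · by_cases hi2 : ∃ x, c x = i
      · rw [if_neg hi, if_pos ⟨hi, hi2⟩]
        have := hin i hi hi2
        linarith
      · rw [if_neg hi, if_neg (fun hh => hi2 hh.2)]
        have := hem i hi2
        rw [this.1, this.2]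
        simp
  have hs := sum_le_sum (s := (univ : Finset ι)) (fun i _ => key i)
  rw [sum_sub_distrib, sum_add_distrib, e1, e2, sum_ite_eq' univ o, if_pos (mem_univ _)] at hs
  rw [sum_filter]
  linarith

end Pool.Agent.Helper98.LC
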