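import Pool.Agent.Helper98.LC.DefsE

/-!
# LC-B05: the box has Euler characteristic one

`|box n| = (2n+1)^2`.  For each direction `k` the number of `x` with `x, x + dir k ∈ box n`: `(2n)(2n+1)` for
`k = 0, 2, 3, 5`, `(2n)^2` for `k = 1, 4`.  So `|dOne| = 4 (2n)(2n+1) + 2 (2n)^2`.  For each `k` the number of
`x` with `x, x + dir k, x + dir (k+1) ∈ box n` is `(2n)^2` (a rectangle again), so `|dTwo| = 6 (2n)^2`.
`6 (2n+1)^2 - 3 (4 (2n)(2n+1) + 2 (2n)^2) + 12 (2n)^2 = 6 ((2n+1) - 2n)^2 = 6`.

Way: write `dOne`, `dTwo` as disjoint unions over `k : Fin 6` (`card_sigma` / `card_filter` / `Finset.card_eq_sum_card_fiberwise`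
with `k = d.2`), each fibre is the product of two integer intervals `Icc a b ×ˢ Icc a' b'`, `Int.card_Icc`.
-/

namespace Pool.Agent.Helper98.LC

open Finset

private theorem eb_mem_box (n : ℕ) (x : V) :
    x ∈ box n ↔ (-(n : ℤ) ≤ x.1 ∧ x.1 ≤ n) ∧ (-(n : ℤ) ≤ x.2 ∧ x.2 ≤ n) := by
  unfold box
  simp only [mem_product, mem_Icc]

private theorem eb_card_filter (S : Finset V) (p : V × Fin 6 → Prop) [DecidablePred p] :
    ((S ×ˢ (univ : Finset (Fin 6))).filter p).card = ∑ k : Fin 6, (S.filter fun x => p (x, k)).card := by
  rw [card_filter, sum_product_right]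
  apply sum_congr rfl
  intro k _
  rw [card_filter]

private theorem eb_rect (n : ℕ) (p : V → Prop) [DecidablePred p] (a b c d : ℤ) (u v : ℕ)
    (h : ∀ x y : ℤ, (((-(n : ℤ) ≤ x ∧ x ≤ n) ∧ (-(n : ℤ) ≤ y ∧ y ≤ n)) ∧ p (x, y)) ↔
      ((a ≤ x ∧ x ≤ b) ∧ (c ≤ y ∧ y ≤ d)))
    (hu : (u : ℤ) = b + 1 - a) (hv : (v : ℤ) = d + 1 - c) :
    ((box n).filter p).card = u * v := by
  have h1 : (box n).filter p = Icc a b ×ˢ Icc c d := by
    ext ⟨x, y⟩
    rw [mem_filter, eb_mem_box, mem_product, mem_Icc, mem_Icc]
    exact h x y
  rw [h1, card_product, Int.card_Icc, Int.card_Icc, ← hu, ← hv, Int.toNat_natCast, Int.toNat_natCast]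

theorem chi6_box (n : ℕ) : chi6 (box n) = 6 := by
  have c0 : (box n).card = (2 * n + 1) * (2 * n + 1) := by
    have := eb_rect n (fun _ => True) (-n) n (-n) n (2 * n + 1) (2 * n + 1) (by
      intro x y; simp) (by push_cast; ring) (by push_cast; ring)
    rwa [filter_true_of_mem (fun _ _ => trivial)] at this
  have c1 : (dOne (box n)).card =
      (2 * n) * (2 * n + 1) + (2 * n) * (2 * n) + (2 * n + 1) * (2 * n) +
      (2 * n) * (2 * n + 1) + (2 * n) * (2 * n) + (2 * n + 1) * (2 * n) := by
    unfold dOne
    rw [eb_card_filter, Fin.sum_univ_six]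
    congr 1
    · congr 1
      · congr 1
        · congr 1
          · congr 1
            · refine eb_rect n _ (-n) (n - 1) (-n) n (2 * n) (2 * n + 1) ?_ (by push_cast; ring) (by push_cast; ring)
              intro x y
              simp only [tip, eb_mem_box, dir, Matrix.cons_val, Prod.mk_add_mk]
              omega
            · refine eb_rect n _ (-n) (n - 1) (-n) (n - 1) (2 * n) (2 * n) ?_ (by push_cast; ring) (by push_cast; ring)
              intro x y
              simp only [tip, eb_mem_box, dir, Matrix.cons_val, Prod.mk_add_mk]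
              omega
          · refine eb_rect n _ (-n) n (-n) (n - 1) (2 * n + 1) (2 * n) ?_ (by push_cast; ring) (by push_cast; ring)
            intro x y
            simp only [tip, eb_mem_box, dir, Matrix.cons_val, Prod.mk_add_mk]
            omega
        · refine eb_rect n _ (-n + 1) n (-n) n (2 * n) (2 * n + 1) ?_ (by push_cast; ring) (by push_cast; ring)
          intro x y
          simp only [tip, eb_mem_box, dir, Matrix.cons_val, Prod.mk_add_mk]
          omega
      · refine eb_rect n _ (-n + 1) n (-n + 1) n (2 * n) (2 * n) ?_ (by push_cast; ring) (by push_cast; ring)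
        intro x y
        simp only [tip, eb_mem_box, dir, Matrix.cons_val, Prod.mk_add_mk]
        omega
    · refine eb_rect n _ (-n) n (-n + 1) n (2 * n + 1) (2 * n) ?_ (by push_cast; ring) (by push_cast; ring)
      intro x y
      simp only [tip, eb_mem_box, dir, Matrix.cons_val, Prod.mk_add_mk]
      omega
  have c2 : (dTwo (box n)).card =
      (2 * n) * (2 * n) + (2 * n) * (2 * n) + (2 * n) * (2 * n) +
      (2 * n) * (2 * n) + (2 * n) * (2 * n) + (2 * n) * (2 * n) := by
    unfold dTwo
    rw [eb_card_filter, Fin.sum_univ_six]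
    congr 1
    · congr 1
      · congr 1
        · congr 1
          · congr 1
            · refine eb_rect n _ (-n) (n - 1) (-n) (n - 1) (2 * n) (2 * n) ?_ (by push_cast; ring) (by push_cast; ring)
              intro x y
              have e1 : tip (((x, y) : V), (0 : Fin 6)) = (x + (1), y + (0)) := rfl
              have e2 : third (((x, y) : V), (0 : Fin 6)) = (x + (1), y + (1)) := rfl
              rw [e1, e2, eb_mem_box, eb_mem_box]
              constructor <;> intro hh <;> simp only at hh ⊢ <;> omega
            · refine eb_rect n _ (-n) (n - 1) (-n) (n - 1) (2 * n) (2 * n) ?_ (by push_cast; ring) (by push_cast; ring)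
              intro x y
              have e1 : tip (((x, y) : V), (1 : Fin 6)) = (x + (1), y + (1)) := rfl
              have e2 : third (((x, y) : V), (1 : Fin 6)) = (x + (0), y + (1)) := rfl
              rw [e1, e2, eb_mem_box, eb_mem_box]
              constructor <;> intro hh <;> simp only at hh ⊢ <;> omega
          · refine eb_rect n _ (-n + 1) (n) (-n) (n - 1) (2 * n) (2 * n) ?_ (by push_cast; ring) (by push_cast; ring)
            intro x y
            have e1 : tip (((x, y) : V), (2 : Fin 6)) = (x + (0), y + (1)) := rfl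
            have e2 : third (((x, y) : V), (2 : Fin 6)) = (x + (-1), y + (0)) := rfl
            rw [e1, e2, eb_mem_box, eb_mem_box]
            constructor <;> intro hh <;> simp only at hh ⊢ <;> omega
        · refine eb_rect n _ (-n + 1) (n) (-n + 1) (n) (2 * n) (2 * n) ?_ (by push_cast; ring) (by push_cast; ring)
          intro x y
          have e1 : tip (((x, y) : V), (3 : Fin 6)) = (x + (-1), y + (0)) := rfl
          have e2 : third (((x, y) : V), (3 : Fin 6)) = (x + (-1), y + (-1)) := rfl
          rw [e1, e2, eb_mem_box, eb_mem_box]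
          constructor <;> intro hh <;> simp only at hh ⊢ <;> omega
      · refine eb_rect n _ (-n + 1) (n) (-n + 1) (n) (2 * n) (2 * n) ?_ (by push_cast; ring) (by push_cast; ring)
        intro x y
        have e1 : tip (((x, y) : V), (4 : Fin 6)) = (x + (-1), y + (-1)) := rfl
        have e2 : third (((x, y) : V), (4 : Fin 6)) = (x + (0), y + (-1)) := rfl
        rw [e1, e2, eb_mem_box, eb_mem_box]
        constructor <;> intro hh <;> simp only at hh ⊢ <;> omega
    · refine eb_rect n _ (-n) (n - 1) (-n + 1) (n) (2 * n) (2 * n) ?_ (by push_cast; ring) (by push_cast; ring)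
      intro x y
      have e1 : tip (((x, y) : V), (5 : Fin 6)) = (x + (0), y + (-1)) := rfl
      have e2 : third (((x, y) : V), (5 : Fin 6)) = (x + (1), y + (0)) := rfl
      rw [e1, e2, eb_mem_box, eb_mem_box]
      constructor <;> intro hh <;> simp only at hh ⊢ <;> omega
  unfold chi6
  rw [c0, c1, c2]
  push_cast
  ring

end Pool.Agent.Helper98.LC
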