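import Pool.Agent.Helper98.LC.B.Area
import Pool.Agent.Helper98.LC.B.EulerBox

/-!
# LC-B06: the Euler characteristics of the classes

`B = box (n + 1)`.  Every `x` in `B` is in exactly one class: `∑ i, |S_i| = |B|`, `S_i = cls c (n+1) i`.
`∑ i, |dOne S_i| = |dOne B| - |darts c n|` (the cut darts: all of them have both ends in `B` since one end is in `box n`;
`mem_darts`).  `∑ i, |dTwo S_i| = |dTwo B| - |NM|`, `NM` = darts `d ∈ dTwo B` whose left triangle is not in one class.
For the rotation `rot d = (tip d, d.2 + 2)`, which permutes `dTwo B` (`rot^3 = 1`, the vertices of the left triangle of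
`rot d` are those of `d` cyclically permuted):
`[cut d] + [cut (rot d)] + [cut (rot (rot d))] = 2 [d ∈ NM] + [IsCorner c d]` for every `d ∈ dTwo B` (0, 2 or 3).
Sum over `dTwo B`; cut darts are in `dTwo B` (one end in `box n`, so all neighbours in `B`), so
`3 |darts c n| = 2 |NM| + |allCorners c n|`.  Hence
`∑ i, chi6 S_i = chi6 B + 3 |darts| - 2 |NM| = 6 + |allCorners|`.
-/

namespace Pool.Agent.Helper98.LC

open Finset

variable {ι : Type} [DecidableEq ι]

private theorem ec_dir2 (k : Fin 6) : dir k + dir (k + 2) = dir (k + 1) := by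
  revert k; decide

private theorem ec_dir3 (k : Fin 6) : dir k + dir (k + 3) = 0 := by
  revert k; decide

private theorem ec_add3 (k : Fin 6) : k + 2 + 1 = k + 3 := by
  revert k; decide

private theorem ec_add6 (k : Fin 6) : k + 2 + 2 + 2 = k := by
  revert k; decide

/-- the rotation of the triangle on the left side -/
private def ecRot (d : V × Fin 6) : V × Fin 6 := (tip d, d.2 + 2)

private theorem ec_tip_rot (d : V × Fin 6) : tip (ecRot d) = third d := by
  unfold tip ecRot third tip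
  simp only
  rw [add_assoc, ec_dir2]

private theorem ec_third_rot (d : V × Fin 6) : third (ecRot d) = d.1 := by
  unfold ecRot third tip
  simp only
  rw [ec_add3, add_assoc, ec_dir3, add_zero]

private theorem ec_fst_rot (d : V × Fin 6) : (ecRot d).1 = tip d := rfl

private theorem ec_rot3 (d : V × Fin 6) : ecRot (ecRot (ecRot d)) = d := by
  refine Prod.ext ?_ ?_
  · rw [ec_fst_rot, ec_tip_rot, ec_third_rot]
  · change d.2 + 2 + 2 + 2 = d.2
    exact ec_add6 _

private theorem ec_mem_box (n : ℕ) (x : V) :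
    x ∈ box n ↔ (-(n : ℤ) ≤ x.1 ∧ x.1 ≤ n) ∧ (-(n : ℤ) ≤ x.2 ∧ x.2 ≤ n) := by
  unfold box
  rw [mem_product, mem_Icc, mem_Icc]

private theorem ec_box_succ (n : ℕ) (x : V) (h : x ∈ box n) : x ∈ box (n + 1) := by
  rw [ec_mem_box] at h ⊢
  push_cast
  omega

private theorem ec_box_nb (n : ℕ) (x : V) (k : Fin 6) (h : x ∈ box n) :
    x + dir k ∈ box (n + 1) := by
  rw [ec_mem_box] at h ⊢
  have h1 : -1 ≤ (dir k).1 ∧ (dir k).1 ≤ 1 ∧ -1 ≤ (dir k).2 ∧ (dir k).2 ≤ 1 := by
    revert k; decide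
  rw [Prod.fst_add, Prod.snd_add]
  push_cast
  omega

private theorem ec_mem_dTwo (S : Finset V) (d : V × Fin 6) :
    d ∈ dTwo S ↔ d.1 ∈ S ∧ tip d ∈ S ∧ third d ∈ S := by
  unfold dTwo
  rw [mem_filter, mem_product]
  simp

private theorem ec_mem_dOne (S : Finset V) (d : V × Fin 6) :
    d ∈ dOne S ↔ d.1 ∈ S ∧ tip d ∈ S := by
  unfold dOne
  rw [mem_filter, mem_product]
  simp

private theorem ec_mem_cls (c : V → ι) (m : ℕ) (i : ι) (x : V) :
    x ∈ cls c m i ↔ x ∈ box m ∧ c x = i := by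
  unfold cls
  rw [mem_filter]

private theorem ec_cut_mem {c : V → ι} {o : ι} {n : ℕ} (h : OutBox c o n) (d : V × Fin 6)
    (hd : c d.1 ≠ c (tip d)) : d ∈ dTwo (box (n + 1)) := by
  rw [ec_mem_dTwo]
  by_cases h1 : d.1 ∈ box n
  · exact ⟨ec_box_succ n _ h1, ec_box_nb n _ _ h1, ec_box_nb n _ _ h1⟩
  · by_cases h2 : tip d ∈ box n
    · have h3 : third d = tip d + dir (d.2 + 2) := by
        unfold third tip
        rw [add_assoc, ec_dir2]
      have h4 : d.1 = tip d + dir (d.2 + 3) := by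
        unfold tip
        rw [add_assoc, ec_dir3, add_zero]
      refine ⟨?_, ec_box_succ n _ h2, ?_⟩
      · rw [h4]
        exact ec_box_nb n _ _ h2
      · rw [h3]
        exact ec_box_nb n _ _ h2
    · exact absurd ((h _ h1).trans (h _ h2).symm) hd

private theorem ec_darts {c : V → ι} {o : ι} {n : ℕ} (h : OutBox c o n) :
    darts c n = (dTwo (box (n + 1))).filter fun d => c d.1 ≠ c (tip d) := by
  ext d
  unfold darts
  rw [mem_filter, mem_filter, mem_product]
  constructor
  · rintro ⟨-, h1⟩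
    exact ⟨ec_cut_mem h d h1, h1⟩
  · rintro ⟨h1, h2⟩
    exact ⟨⟨((ec_mem_dTwo _ _).mp h1).1, mem_univ _⟩, h2⟩

private theorem ec_darts' {c : V → ι} {o : ι} {n : ℕ} (h : OutBox c o n) :
    darts c n = (dOne (box (n + 1))).filter fun d => c d.1 ≠ c (tip d) := by
  ext d
  unfold darts
  rw [mem_filter, mem_filter, mem_product]
  constructor
  · rintro ⟨-, h1⟩
    have h2 := (ec_mem_dTwo _ _).mp (ec_cut_mem h d h1)
    exact ⟨(ec_mem_dOne _ _).mpr ⟨h2.1, h2.2.1⟩, h1⟩
  · rintro ⟨h1, h2⟩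
    exact ⟨⟨((ec_mem_dOne _ _).mp h1).1, mem_univ _⟩, h2⟩

private theorem ec_sum_rot (m : ℕ) (f : V × Fin 6 → ℤ) :
    ∑ d ∈ dTwo (box m), f (ecRot d) = ∑ d ∈ dTwo (box m), f d := by
  have hm : ∀ d ∈ dTwo (box m), ecRot d ∈ dTwo (box m) := by
    intro d hd
    rw [ec_mem_dTwo] at hd ⊢
    rw [ec_tip_rot, ec_third_rot]
    exact ⟨hd.2.1, hd.2.2, hd.1⟩
  refine sum_nbij' ecRot (fun d => ecRot (ecRot d)) hm (fun d hd => hm _ (hm d hd)) ?_ ?_ ?_
  · intro d _
    exact ec_rot3 d
  · intro d _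
    exact ec_rot3 d
  · intro d _
    rfl

private theorem ec_count {c : V → ι} {o : ι} {n : ℕ} (h : OutBox c o n) :
    3 * ((darts c n).card : ℤ) =
      2 * ((((dTwo (box (n + 1))).filter fun d =>
        ¬ (c d.1 = c (tip d) ∧ c (third d) = c d.1)).card : ℕ) : ℤ) +
        ((allCorners c n).card : ℤ) := by
  have h1 : ((darts c n).card : ℤ) =
      ∑ d ∈ dTwo (box (n + 1)), if c d.1 ≠ c (tip d) then (1 : ℤ) else 0 := by
    rw [ec_darts h, card_filter]
    push_cast
    rfl
  have h2 := ec_sum_rot (n + 1) fun d => if c d.1 ≠ c (tip d) then (1 : ℤ) else 0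
  have h3 := ec_sum_rot (n + 1) fun d => if c (ecRot d).1 ≠ c (tip (ecRot d)) then (1 : ℤ) else 0
  have h4 : ((allCorners c n).card : ℤ) =
      ∑ d ∈ dTwo (box (n + 1)), if IsCorner c d then (1 : ℤ) else 0 := by
    have : allCorners c n = (dTwo (box (n + 1))).filter fun d => IsCorner c d := by
      unfold allCorners
      rw [ec_darts h, filter_filter]
      ext d
      rw [mem_filter, mem_filter]
      constructor
      · rintro ⟨a1, a2, a3⟩
        exact ⟨a1, a3⟩
      · rintro ⟨a1, a2⟩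
        exact ⟨a1, a2.1, a2⟩
    rw [this, card_filter]
    push_cast
    rfl
  have h5 : ((((dTwo (box (n + 1))).filter fun d =>
        ¬ (c d.1 = c (tip d) ∧ c (third d) = c d.1)).card : ℕ) : ℤ) =
      ∑ d ∈ dTwo (box (n + 1)), if ¬ (c d.1 = c (tip d) ∧ c (third d) = c d.1) then (1 : ℤ) else 0 := by
    rw [card_filter]
    push_cast
    rfl
  have h6 : 3 * ((darts c n).card : ℤ) = ∑ d ∈ dTwo (box (n + 1)),
      ((if c d.1 ≠ c (tip d) then (1 : ℤ) else 0) +
        (if c (ecRot d).1 ≠ c (tip (ecRot d)) then (1 : ℤ) else 0) +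
        (if c (ecRot (ecRot d)).1 ≠ c (tip (ecRot (ecRot d))) then (1 : ℤ) else 0)) := by
    rw [sum_add_distrib, sum_add_distrib, h3, h2, ← h1]
    ring
  rw [h6, h4, h5, mul_sum, ← sum_add_distrib]
  refine sum_congr rfl fun d _ => ?_
  rw [ec_tip_rot, ec_tip_rot, ec_third_rot, ec_fst_rot, ec_fst_rot, ec_tip_rot]
  by_cases a1 : c d.1 = c (tip d)
  · by_cases a2 : c (third d) = c d.1
    · rw [if_neg (by simpa using a1), if_neg (by rw [a2]; simpa using a1.symm),
        if_neg (by simpa using a2), if_neg (by simpa using ⟨a1, a2⟩),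
        if_neg (show ¬ IsCorner c d from fun h => h.1 a1)]
      norm_num
    · rw [if_neg (by simpa using a1), if_pos (by rw [← a1]; exact fun h => a2 h.symm),
        if_pos a2, if_pos (fun h => a2 h.2), if_neg (show ¬ IsCorner c d from fun h => h.1 a1)]
      norm_num
  · by_cases a2 : c (third d) = c d.1
    · rw [if_pos a1, if_pos (by rw [a2]; exact fun h => a1 h.symm),
        if_neg (by simpa using a2), if_pos (fun h => a1 h.1), if_neg (show ¬ IsCorner c d from fun h => h.2.1 a2)]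
      norm_num
    · by_cases a3 : c (third d) = c (tip d)
      · rw [if_pos a1, if_neg (by simpa using a3.symm), if_pos a2, if_pos (fun h => a1 h.1),
          if_neg (show ¬ IsCorner c d from fun h => h.2.2 a3)]
        norm_num
      · rw [if_pos a1, if_pos (fun h => a3 h.symm), if_pos a2, if_pos (fun h => a1 h.1),
          if_pos (show IsCorner c d from ⟨a1, a2, a3⟩)]
        norm_num

theorem sum_chi6 [Fintype ι] {c : V → ι} {o : ι} {n : ℕ} (h : OutBox c o n) :
    ∑ i, chi6 (cls c (n + 1) i) = 6 + ((allCorners c n).card : ℤ) := by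
  have e0 : ∑ i, ((cls c (n + 1) i).card : ℤ) = ((box (n + 1)).card : ℤ) := by
    rw [← Nat.cast_sum, card_eq_sum_card_fiberwise (f := c) (t := univ)
      (fun x _ => mem_coe.mpr (mem_univ _))]
    rfl
  have e1 : ∑ i, ((dOne (cls c (n + 1) i)).card : ℤ) =
      ((dOne (box (n + 1))).card : ℤ) - ((darts c n).card : ℤ) := by
    have a1 := card_filter_add_card_filter_not (s := dOne (box (n + 1)))
      (fun d : V × Fin 6 => c d.1 = c (tip d))
    have a2 : ∑ i, (dOne (cls c (n + 1) i)).card =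
        ((dOne (box (n + 1))).filter fun d => c d.1 = c (tip d)).card := by
      rw [card_eq_sum_card_fiberwise (f := fun d : V × Fin 6 => c d.1) (t := univ)
        (fun x _ => mem_coe.mpr (mem_univ _))]
      refine sum_congr rfl fun i _ => ?_
      congr 1
      ext d
      rw [ec_mem_dOne, ec_mem_cls, ec_mem_cls, mem_filter, mem_filter, ec_mem_dOne]
      constructor
      · rintro ⟨⟨b1, b2⟩, b3, b4⟩
        exact ⟨⟨⟨b1, b3⟩, b2.trans b4.symm⟩, b2⟩
      · rintro ⟨⟨⟨b1, b3⟩, b2⟩, b4⟩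
        exact ⟨⟨b1, b4⟩, b3, b2.symm.trans b4⟩
    rw [← Nat.cast_sum, a2, ec_darts' h]
    rw [← a1]
    push_cast
    ring
  have e2 : ∑ i, ((dTwo (cls c (n + 1) i)).card : ℤ) =
      ((dTwo (box (n + 1))).card : ℤ) - ((((dTwo (box (n + 1))).filter fun d =>
        ¬ (c d.1 = c (tip d) ∧ c (third d) = c d.1)).card : ℕ) : ℤ) := by
    have a1 := card_filter_add_card_filter_not (s := dTwo (box (n + 1)))
      (fun d : V × Fin 6 => c d.1 = c (tip d) ∧ c (third d) = c d.1)
    have a2 : ∑ i, (dTwo (cls c (n + 1) i)).card =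
        ((dTwo (box (n + 1))).filter fun d =>
          c d.1 = c (tip d) ∧ c (third d) = c d.1).card := by
      rw [card_eq_sum_card_fiberwise (f := fun d : V × Fin 6 => c d.1) (t := univ)
        (fun x _ => mem_coe.mpr (mem_univ _))]
      refine sum_congr rfl fun i _ => ?_
      congr 1
      ext d
      rw [ec_mem_dTwo, ec_mem_cls, ec_mem_cls, ec_mem_cls, mem_filter, mem_filter, ec_mem_dTwo]
      constructor
      · rintro ⟨⟨b1, b2⟩, ⟨b3, b4⟩, b5, b6⟩
        exact ⟨⟨⟨b1, b3, b5⟩, b2.trans b4.symm, b6.trans b2.symm⟩, b2⟩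
      · rintro ⟨⟨⟨b1, b3, b5⟩, b2, b6⟩, b4⟩
        exact ⟨⟨b1, b4⟩, ⟨b3, b2.symm.trans b4⟩, b5, b6.trans b4⟩
    rw [← Nat.cast_sum, a2, ← a1]
    push_cast
    ring
  have e3 := ec_count h
  have e4 := chi6_box (n + 1)
  unfold chi6 at e4 ⊢
  rw [sum_add_distrib, sum_sub_distrib, ← mul_sum, ← mul_sum, ← mul_sum, e0, e1, e2]
  linarith


theorem sum_corners [Fintype ι] (c : V → ι) (n : ℕ) :
    ∑ i, (corners c n i).card = (allCorners c n).card := by
  rw [card_eq_sum_card_fiberwise (f := fun d : V × Fin 6 => c d.1) (t := univ)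
    (fun x _ => mem_coe.mpr (mem_univ _))]
  refine sum_congr rfl fun i _ => ?_
  congr 1
  unfold corners allCorners
  rw [filter_filter]


end Pool.Agent.Helper98.LC
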