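import Pool.Agent.Helper98.LC.B.Dart
import Pool.Agent.Helper98.LC.DefsE

/-!
# LC-B07: the cycle space of a connected set

Linear algebra over `F = ZMod 2`.  `S` finite, nonempty, connected; `Eg` = the set of edges of `S`, represented by the darts
`(x, k)` with `k ∈ {0, 1, 2}`, `x, x + dir k ∈ S` (`|dOne S| = 2 |Eg|`, by the involution `rev`, which changes `k` to
`k + 3`).

* `W` is a space of functions `t` on triangles, i.e. functions on darts with `t (x + dir k) (k + 2) = t x k` (the value at the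
  triangle on the left side of the dart), such that for every edge not in `S` the two adjacent triangles have the same
  value: `t x k = t x (k - 1)` if not both `x, x + dir k ∈ S` (left triangle of `(x,k)`: `t x k`, right triangle: `t x (k-1)`),
  and such that only `0` is constant.
* `D : W → (Eg → F)`, `(D t) (x,k) = t x k + t x (k-1)`.  `D` is injective: if `D t = 0` then `t x k = t x (k - 1)` for ALL darts
  (for `k = 3,4,5` use the reversed dart: the two triangles are exchanged: `t (x + dir k) (k + 3) = t x (k-1)`, from the rotation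
  invariance twice), so `t x k` does not depend on `k`, and by `t (x + dir k) (k+2) = t x k` it does not depend on `x`
  either: constant, hence `0`.
* `δ : (S → F) → (Eg → F)`, `(δ f)(x,k) = f x + f (x + dir k)`.  Its kernel consists of the constants on `S` (connected), so
  `rank δ ≥ |S| - 1`.
* Orthogonality: `∑ g ∈ Eg, (D t) g * (δ f) g = 0`: it is `∑ x ∈ S, f x * ∑ (edges of S at x) (D t) = ∑ x ∈ S, f x * ∑ k : Fin 6, (t x k + t x (k-1))`
  (edges not in `S` contribute `0`), and the inner sum is `2 ∑ k, t x k = 0`.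
* So `finrank W + (|S| - 1) ≤ |Eg|` (the annihilator of the image of `δ` under the dot product has dimension
  `|Eg| - rank δ`; e.g. `Matrix.rank` / `LinearMap.BilinForm.finrank_orthogonal` / two matrices with product `0`).
-/

namespace Pool.Agent.Helper98.LC

open Finset

private noncomputable def eg_half (S : Finset V) : Finset (V × Fin 6) :=
  (dOne S).filter fun d => (d.2 : ℕ) < 3

private theorem eg_mem_dOne (S : Finset V) (d : V × Fin 6) :
    d ∈ dOne S ↔ d.1 ∈ S ∧ tip d ∈ S := by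
  unfold dOne
  rw [mem_filter, mem_product]
  simp

private theorem eg_rev_dOne (S : Finset V) (d : V × Fin 6) : rev d ∈ dOne S ↔ d ∈ dOne S := by
  rw [eg_mem_dOne, eg_mem_dOne, tip_rev]
  exact and_comm

private theorem eg_fin (k : Fin 6) : ((k + 3 : Fin 6) : ℕ) < 3 ↔ ¬ (k : ℕ) < 3 := by
  revert k
  decide

private theorem eg_sum {M : Type} [AddCommMonoid M] (S : Finset V) (h : V × Fin 6 → M) :
    ∑ d ∈ dOne S, h d = ∑ g ∈ eg_half S, (h g + h (rev g)) := by
  rw [← Finset.sum_filter_add_sum_filter_not (dOne S) (fun d => (d.2 : ℕ) < 3),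
    Finset.sum_add_distrib]
  refine congrArg₂ (· + ·) rfl ?_
  refine Finset.sum_nbij' rev rev ?_ ?_ ?_ ?_ ?_
  · intro d hd
    rw [mem_filter] at hd
    unfold eg_half
    rw [mem_filter, eg_rev_dOne]
    exact ⟨hd.1, (eg_fin d.2).2 hd.2⟩
  · intro d hd
    unfold eg_half at hd
    rw [mem_filter] at hd ⊢
    rw [eg_rev_dOne]
    exact ⟨hd.1, fun h => (eg_fin d.2).1 h hd.2⟩
  · intro d _
    exact rev_rev d
  · intro d _
    exact rev_rev d
  · intro d _
    rw [rev_rev]

private theorem eg_card (S : Finset V) : (dOne S).card = 2 * (eg_half S).card := by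
  have h := eg_sum S (fun _ => (1 : ℕ))
  rw [Finset.sum_const, Finset.sum_const, smul_eq_mul, smul_eq_mul] at h
  omega

private def eg_E (t : V → Fin 6 → ZMod 2) (d : V × Fin 6) : ZMod 2 :=
  t d.1 d.2 + t d.1 (d.2 - 1)

private theorem eg_E_rev (t : V → Fin 6 → ZMod 2)
    (hrot : ∀ x k, t (x + dir k) (k + 2) = t x k) (d : V × Fin 6) :
    eg_E t (rev d) = eg_E t d := by
  obtain ⟨x, k⟩ := d
  unfold eg_E rev
  simp only
  have h1 : k + 3 - 1 = k + 2 := (by decide : ∀ k : Fin 6, k + 3 - 1 = k + 2) k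
  rw [h1, hrot x k]
  -- the triangle on the left of `(x, k - 1)`
  have h2 := hrot x (k - 1)
  have h3 := hrot (x + dir (k - 1)) (k - 1 + 2)
  have h4 : dir (k - 1) + dir (k - 1 + 2) = dir k :=
    (by decide : ∀ k : Fin 6, dir (k - 1) + dir (k - 1 + 2) = dir k) k
  have h5 : k - 1 + 2 + 2 = k + 3 := (by decide : ∀ k : Fin 6, k - 1 + 2 + 2 = k + 3) k
  rw [add_assoc, h4, h5, h2] at h3
  rw [h3, add_comm]

private theorem eg_E_zero (S : Finset V) (t : V → Fin 6 → ZMod 2)
    (hout : ∀ x k, ¬ (x ∈ S ∧ x + dir k ∈ S) → t x k = t x (k - 1)) (d : V × Fin 6)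
    (hd : d ∉ dOne S) : eg_E t d = 0 := by
  rw [eg_mem_dOne] at hd
  unfold eg_E
  rw [hout d.1 d.2 hd]
  exact CharTwo.add_self_eq_zero _

private theorem eg_sum_k (f : Fin 6 → ZMod 2) : ∑ k, (f k + f (k - 1)) = 0 := by
  rw [Finset.sum_add_distrib]
  have h : ∑ k : Fin 6, f (k - 1) = ∑ k : Fin 6, f k :=
    Fintype.sum_equiv (Equiv.subRight (1 : Fin 6)) _ _ (fun k => rfl)
  rw [h]
  exact CharTwo.add_self_eq_zero _

private theorem eg_orth (S : Finset V) (t : V → Fin 6 → ZMod 2)
    (hrot : ∀ x k, t (x + dir k) (k + 2) = t x k)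
    (hout : ∀ x k, ¬ (x ∈ S ∧ x + dir k ∈ S) → t x k = t x (k - 1)) (x : V) (hx : x ∈ S) :
    ∑ g ∈ eg_half S, eg_E t g * ((if g.1 = x then 1 else 0) + (if tip g = x then 1 else 0)) =
      0 := by
  have h1 := eg_sum S (fun d => eg_E t d * (if d.1 = x then (1 : ZMod 2) else 0))
  have h2 : ∑ g ∈ eg_half S, eg_E t g * ((if g.1 = x then 1 else 0) +
      (if tip g = x then 1 else 0)) =
      ∑ g ∈ eg_half S, (eg_E t g * (if g.1 = x then (1 : ZMod 2) else 0) +
        eg_E t (rev g) * (if (rev g).1 = x then (1 : ZMod 2) else 0)) := by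
    refine Finset.sum_congr rfl fun g _ => ?_
    rw [eg_E_rev t hrot, mul_add]
    rfl
  rw [h2, ← h1]
  have h3 : ∑ d ∈ dOne S, eg_E t d * (if d.1 = x then (1 : ZMod 2) else 0) =
      ∑ d ∈ S ×ˢ (univ : Finset (Fin 6)), eg_E t d * (if d.1 = x then (1 : ZMod 2) else 0) := by
    unfold dOne
    rw [Finset.sum_filter]
    refine Finset.sum_congr rfl fun d hd => ?_
    by_cases h : tip d ∈ S
    · rw [if_pos h]
    · rw [if_neg h, eg_E_zero S t hout d, zero_mul]
      rw [eg_mem_dOne]
      exact fun h' => h h'.2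
  rw [h3, Finset.sum_product]
  rw [Finset.sum_eq_single_of_mem x hx]
  · simp only [if_true, mul_one]
    exact eg_sum_k (t x)
  · intro y _ hy
    simp [hy]

private theorem eg_const (t : V → Fin 6 → ZMod 2)
    (hrot : ∀ x k, t (x + dir k) (k + 2) = t x k)
    (h : ∀ d, eg_E t d = 0) : ∀ x k, t x k = t 0 0 := by
  have h1 : ∀ x k, t x k = t x (k - 1) := by
    intro x k
    have := h (x, k)
    unfold eg_E at this
    exact CharTwo.add_eq_zero.1 this
  have h2 : ∀ x k, t x k = t x 0 := by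
    intro x k
    have e1 := h1 x 1
    have e2 := h1 x 2
    have e3 := h1 x 3
    have e4 := h1 x 4
    have e5 := h1 x 5
    have f1 : (1 : Fin 6) - 1 = 0 := by decide
    have f2 : (2 : Fin 6) - 1 = 1 := by decide
    have f3 : (3 : Fin 6) - 1 = 2 := by decide
    have f4 : (4 : Fin 6) - 1 = 3 := by decide
    have f5 : (5 : Fin 6) - 1 = 4 := by decide
    rw [f1] at e1
    rw [f2, e1] at e2
    rw [f3, e2] at e3
    rw [f4, e3] at e4
    rw [f5, e4] at e5
    fin_cases k
    · rfl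
    · exact e1
    · exact e2
    · exact e3
    · exact e4
    · exact e5
  have h3 : ∀ x k, t (x + dir k) 0 = t x 0 := by
    intro x k
    rw [← h2 (x + dir k) (k + 2), hrot x k, h2 x k]
  have h4 : ∀ (a : ℤ) (b : ℤ), t (a, b) 0 = t (0, b) 0 := by
    intro a b
    induction a using Int.induction_on with
    | zero => rfl
    | succ i ih =>
      have := h3 ((i : ℤ), b) 0
      have e : (((i : ℤ), b) : V) + dir 0 = ((i : ℤ) + 1, b) := by
        simp [dir]
      rw [e] at this
      rw [this, ih]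
    | pred i ih =>
      have := h3 (-(i : ℤ) - 1, b) 0
      have e : ((-(i : ℤ) - 1, b) : V) + dir 0 = (-(i : ℤ), b) := by
        simp [dir]
      rw [e] at this
      rw [← this, ih]
  have h5 : ∀ (b : ℤ), t (0, b) 0 = t (0, 0) 0 := by
    intro b
    induction b using Int.induction_on with
    | zero => rfl
    | succ i ih =>
      have := h3 (0, (i : ℤ)) 2
      have e : ((0, (i : ℤ)) : V) + dir 2 = (0, (i : ℤ) + 1) := by
        simp [dir]
      rw [e] at this
      rw [this, ih]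
    | pred i ih =>
      have := h3 (0, -(i : ℤ) - 1) 2
      have e : ((0, -(i : ℤ) - 1) : V) + dir 2 = (0, -(i : ℤ)) := by
        simp [dir]
      rw [e] at this
      rw [← this, ih]
  intro x k
  obtain ⟨a, b⟩ := x
  rw [h2, h4, h5]
  rfl

private noncomputable def eg_D (S : Finset V) :
    (V → Fin 6 → ZMod 2) →ₗ[ZMod 2] (↥(eg_half S) → ZMod 2) where
  toFun t g := eg_E t g.1
  map_add' t t' := by
    funext g
    simp only [eg_E, Pi.add_apply]
    ring
  map_smul' c t := by
    funext g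
    simp only [eg_E, Pi.smul_apply, smul_eq_mul, RingHom.id_apply]
    ring

private noncomputable def eg_psi (S : Finset V) :
    (↥(eg_half S) → ZMod 2) →ₗ[ZMod 2] (↥S → ZMod 2) where
  toFun u x := ∑ g : ↥(eg_half S), u g *
    ((if g.1.1 = x.1 then 1 else 0) + (if tip g.1 = x.1 then 1 else 0))
  map_add' u u' := by
    funext x
    simp only [Pi.add_apply, add_mul, Finset.sum_add_distrib]
  map_smul' c u := by
    funext x
    simp only [Pi.smul_apply, smul_eq_mul, RingHom.id_apply, mul_assoc, Finset.mul_sum]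

private theorem eg_half_mem {S : Finset V} {g : V × Fin 6} (h : g ∈ eg_half S) :
    g.1 ∈ S ∧ tip g ∈ S := by
  unfold eg_half at h
  rw [mem_filter, eg_mem_dOne] at h
  exact h.1

private theorem eg_psi_single (S : Finset V) (g : ↥(eg_half S)) :
    eg_psi S (Pi.single g 1) =
      Pi.single (⟨g.1.1, (eg_half_mem g.2).1⟩ : ↥S) 1 +
        Pi.single (⟨tip g.1, (eg_half_mem g.2).2⟩ : ↥S) 1 := by
  funext x
  change ∑ g' : ↥(eg_half S), (Pi.single g (1 : ZMod 2) : ↥(eg_half S) → ZMod 2) g' *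
    ((if g'.1.1 = x.1 then 1 else 0) + (if tip g'.1 = x.1 then 1 else 0)) = _
  rw [Finset.sum_eq_single_of_mem g (Finset.mem_univ g)]
  · rw [Pi.single_eq_same, one_mul, Pi.add_apply]
    refine congrArg₂ (· + ·) ?_ ?_
    · rw [Pi.single_apply]
      by_cases h : g.1.1 = x.1
      · rw [if_pos h, if_pos (Subtype.ext h.symm)]
      · rw [if_neg h, if_neg]
        intro h'
        exact h (by rw [h'])
    · rw [Pi.single_apply]
      by_cases h : tip g.1 = x.1
      · rw [if_pos h, if_pos (Subtype.ext h.symm)]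
      · rw [if_neg h, if_neg]
        intro h'
        exact h (by rw [h'])
  · intro g' _ hg'
    rw [Pi.single_eq_of_ne hg', zero_mul]

private theorem eg_two {α : Type} (f : α → ZMod 2) : f + f = 0 := by
  funext x
  exact CharTwo.add_self_eq_zero _

private theorem eg_edge (S : Finset V) (a b : V) (ha : a ∈ S) (hb : b ∈ S)
    (hab : ∃ k, b = a + dir k) :
    (Pi.single (⟨a, ha⟩ : ↥S) (1 : ZMod 2) + Pi.single (⟨b, hb⟩ : ↥S) 1 : ↥S → ZMod 2) ∈
      LinearMap.range (eg_psi S) := by
  obtain ⟨k, rfl⟩ := hab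
  have hd : ((a, k) : V × Fin 6) ∈ dOne S := by
    rw [eg_mem_dOne]
    exact ⟨ha, hb⟩
  by_cases hk : (k : ℕ) < 3
  · have hg : ((a, k) : V × Fin 6) ∈ eg_half S := by
      unfold eg_half
      rw [mem_filter]
      exact ⟨hd, hk⟩
    exact ⟨Pi.single ⟨(a, k), hg⟩ 1, eg_psi_single S ⟨(a, k), hg⟩⟩
  · have hg : rev ((a, k) : V × Fin 6) ∈ eg_half S := by
      unfold eg_half
      rw [mem_filter, eg_rev_dOne]
      exact ⟨hd, (eg_fin k).2 hk⟩
    refine ⟨Pi.single ⟨rev (a, k), hg⟩ 1, ?_⟩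
    rw [eg_psi_single S ⟨rev (a, k), hg⟩, add_comm]
    refine congrArg₂ (· + ·) ?_ rfl
    have h1 : (⟨tip (rev ((a, k) : V × Fin 6)), (eg_half_mem hg).2⟩ : ↥S) = ⟨a, ha⟩ :=
      Subtype.ext (tip_rev _)
    rw [h1]

private theorem eg_path (S : Finset V) (a b : V) (ha : a ∈ S)
    (hab : Relation.ReflTransGen (fun a b : V => a ∈ S ∧ b ∈ S ∧ ∃ k, b = a + dir k) a b) :
    ∃ hb : b ∈ S,
      (Pi.single (⟨a, ha⟩ : ↥S) (1 : ZMod 2) + Pi.single (⟨b, hb⟩ : ↥S) 1 : ↥S → ZMod 2) ∈
      LinearMap.range (eg_psi S) := by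
  induction hab with
  | refl =>
    refine ⟨ha, ?_⟩
    rw [eg_two]
    exact Submodule.zero_mem _
  | tail _ hstep ih =>
    obtain ⟨hb, hc, hk⟩ := hstep
    obtain ⟨hb', h1⟩ := ih
    refine ⟨hc, ?_⟩
    have h2 := eg_edge S _ _ hb hc hk
    have h3 := Submodule.add_mem _ h1 h2
    have h4 : ∀ u v w : ↥S → ZMod 2, u + v + (v + w) = u + w := by
      intro u v w
      rw [add_assoc, ← add_assoc v v w, eg_two, zero_add]
    rw [h4] at h3
    exact h3

private theorem eg_rank (S : Finset V) (hne : S.Nonempty) (hc : ConnSet S) :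
    S.card ≤ Module.finrank (ZMod 2) (LinearMap.range (eg_psi S)) + 1 := by
  obtain ⟨x₀, hx₀⟩ := hne
  have htop : LinearMap.range (eg_psi S) ⊔
      Submodule.span (ZMod 2) {(Pi.single (⟨x₀, hx₀⟩ : ↥S) (1 : ZMod 2) : ↥S → ZMod 2)} = ⊤ := by
    rw [eq_top_iff]
    intro f _
    have hf : f = ∑ x : ↥S, f x • (Pi.single x (1 : ZMod 2) : ↥S → ZMod 2) := by
      funext y
      rw [Finset.sum_apply, Finset.sum_eq_single_of_mem y (Finset.mem_univ y)]
      · simp
      · intro x _ hx
        rw [Pi.smul_apply, Pi.single_eq_of_ne hx.symm, smul_zero]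
    rw [hf]
    refine Submodule.sum_mem _ fun x _ => Submodule.smul_mem _ _ ?_
    obtain ⟨hx', h1⟩ := eg_path S x.1 x₀ x.2 (hc x.1 x.2 x₀ hx₀)
    have h2 : (Pi.single x (1 : ZMod 2) : ↥S → ZMod 2) =
        (Pi.single (⟨x.1, x.2⟩ : ↥S) (1 : ZMod 2) + Pi.single (⟨x₀, hx'⟩ : ↥S) 1) +
          Pi.single (⟨x₀, hx₀⟩ : ↥S) 1 := by
      rw [add_assoc, eg_two, add_zero]
    rw [h2]
    exact Submodule.add_mem_sup h1 (Submodule.mem_span_singleton_self _)
  have h1 := Submodule.finrank_add_le_finrank_add_finrank (LinearMap.range (eg_psi S))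
    (Submodule.span (ZMod 2) {(Pi.single (⟨x₀, hx₀⟩ : ↥S) (1 : ZMod 2) : ↥S → ZMod 2)})
  rw [htop, finrank_top, Module.finrank_fintype_fun_eq_card, Fintype.card_coe] at h1
  have h2 : Module.finrank (ZMod 2) (Submodule.span (ZMod 2)
      {(Pi.single (⟨x₀, hx₀⟩ : ↥S) (1 : ZMod 2) : ↥S → ZMod 2)}) ≤ 1 := by
    have h3 := finrank_span_le_card (R := ZMod 2)
      ({(Pi.single (⟨x₀, hx₀⟩ : ↥S) (1 : ZMod 2) : ↥S → ZMod 2)} : Set (↥S → ZMod 2))
    simpa using h3
  omega

theorem euler_gen (S : Finset V) (hne : S.Nonempty) (hc : ConnSet S)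
    (W : Submodule (ZMod 2) (V → Fin 6 → ZMod 2))
    (hrot : ∀ t ∈ W, ∀ x k, t (x + dir k) (k + 2) = t x k)
    (hout : ∀ t ∈ W, ∀ x k, ¬ (x ∈ S ∧ x + dir k ∈ S) → t x k = t x (k - 1))
    (hconst : ∀ t ∈ W, (∀ x k, t x k = t 0 0) → t = 0) :
    2 * (Module.finrank (ZMod 2) W + S.card) ≤ (dOne S).card + 2 := by
  have hker : ∀ t : ↥W, ((eg_D S).domRestrict W) t ∈ LinearMap.ker (eg_psi S) := by
    intro t
    rw [LinearMap.mem_ker]
    funext x
    change ∑ g : ↥(eg_half S), eg_E t.1 g.1 *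
      ((if g.1.1 = x.1 then 1 else 0) + (if tip g.1 = x.1 then 1 else 0)) = 0
    rw [Finset.sum_coe_sort (eg_half S) (fun g => eg_E t.1 g *
      ((if g.1 = x.1 then 1 else 0) + (if tip g = x.1 then 1 else 0)))]
    exact eg_orth S t.1 (hrot t.1 t.2) (hout t.1 t.2) x.1 x.2
  have hinj : Function.Injective (((eg_D S).domRestrict W).codRestrict
      (LinearMap.ker (eg_psi S)) hker) := by
    rw [← LinearMap.ker_eq_bot, LinearMap.ker_eq_bot']
    intro t ht
    have h0 : ∀ g ∈ eg_half S, eg_E t.1 g = 0 := by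
      intro g hg
      have h1 : ((eg_D S).domRestrict W) t = 0 := by
        have := congrArg Subtype.val ht
        exact this
      exact congrFun h1 ⟨g, hg⟩
    have hE : ∀ d, eg_E t.1 d = 0 := by
      intro d
      by_cases hd : d ∈ dOne S
      · by_cases hk : (d.2 : ℕ) < 3
        · exact h0 d (by unfold eg_half; rw [mem_filter]; exact ⟨hd, hk⟩)
        · rw [← eg_E_rev t.1 (hrot t.1 t.2) d]
          refine h0 (rev d) ?_
          unfold eg_half
          rw [mem_filter, eg_rev_dOne]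
          exact ⟨hd, (eg_fin d.2).2 hk⟩
      · exact eg_E_zero S t.1 (hout t.1 t.2) d hd
    exact Subtype.ext (hconst t.1 t.2 (eg_const t.1 (hrot t.1 t.2) hE))
  have h1 := LinearMap.finrank_le_finrank_of_injective hinj
  have h2 := LinearMap.finrank_range_add_finrank_ker (eg_psi S)
  rw [Module.finrank_fintype_fun_eq_card, Fintype.card_coe] at h2
  have h3 := eg_rank S hne hc
  have h4 := eg_card S
  omega

end Pool.Agent.Helper98.LC
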