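import Pool.Agent.Helper98.LC.B.Coch
import Pool.Agent.Helper98.LC.B.Edge

/-!
# LC-B13: the potential of a loop

`d₀` is a cut dart whose orbit under `next c` has no corner.  `Γ = {(next c)^[m] d₀}`.
* All darts of `Γ` are cut, no corners, start in the class `c d₀.1` (`class_next`) and end in the class `c (tip d₀)`
  (`class_tip_next`, induction).  `Γ` is invariant under `next c` and under `prev c` (the orbit is periodic, since `next c` is a
  permutation of the finite set `darts c n`).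
* `φ d = 1` if `d ∈ Γ`, `-1` if `rev d ∈ Γ`, `0` otherwise; not both, since the classes `c d₀.1 ≠ c (tip d₀)`.
  Antisymmetric: `rev_rev`.
* Closed: consider the triangle with the darts `t₀ = (x,k)`, `t₁ = (x + dir k, k+2)`, `t₂ = (x + dir (k+1), k + 4)`.  If one of
  them, say `t₀` (by rotation), is in `Γ`: it is not a corner, so its third vertex is in the class of `x` — then
  `next c t₀ = (third, k - 1) = rev t₁ ∈ Γ`, `φ t₁ = -1` and `t₂` joins two vertices of the same class, `φ t₂ = 0` — or in the class of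
  the tip — then `next c t₀ = (x, k+1) = rev t₂ ∈ Γ`, `φ t₂ = -1`, `φ t₁ = 0`.  If none of them is in `Γ` but, say, `rev t₀ ∈ Γ`:
  `prev c (rev t₀) ∈ Γ` is `t₂` or `t₁` (its definition looks at the third vertex `x + dir (k+1)` of the triangle): contradiction.
  If nothing is in `Γ` or `rev Γ`: `0`.
* `exact_cochain` gives `f`.
-/

namespace Pool.Agent.Helper98.LC

open Finset

variable {ι : Type} [DecidableEq ι]

private theorem lp_a (x : V) (k : Fin 6) : x + dir k + dir (k + 2) = x + dir (k + 1) := by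
  rw [add_assoc]; congr 1; revert k; decide

private theorem lp_b (x : V) (k : Fin 6) : x + dir (k + 1) + dir (k + 4) = x := by
  have : dir (k + 1) + dir (k + 4) = 0 := by revert k; decide
  rw [add_assoc, this, add_zero]

/-- rotation of a triangle -/
private def lrot (d : V × Fin 6) : V × Fin 6 := (tip d, d.2 + 2)

private theorem lrot2 (x : V) (k : Fin 6) : lrot (lrot (x, k)) = (x + dir (k + 1), k + 4) := by
  have h : k + 2 + 2 = k + 4 := by revert k; decide
  simp only [lrot, tip, lp_a, h]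

private theorem lrot3 (d : V × Fin 6) : lrot (lrot (lrot d)) = d := by
  obtain ⟨x, k⟩ := d
  have h : k + 4 + 2 = k := by revert k; decide
  have h2 : lrot (lrot (lrot (x, k))) = lrot (x + dir (k + 1), k + 4) := congrArg lrot (lrot2 x k)
  rw [h2]
  simp only [lrot, tip, lp_b, h]

private theorem rev_lrot (x : V) (k : Fin 6) : rev (lrot (x, k)) = (x + dir (k + 1), k - 1) := by
  have h : k + 2 + 3 = k - 1 := by revert k; decide
  simp only [lrot, rev, tip, lp_a, h]

private theorem rev_lrot2 (x : V) (k : Fin 6) : rev (lrot (lrot (x, k))) = (x, k + 1) := by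
  have h : k + 4 + 3 = k + 1 := by revert k; decide
  rw [lrot2]
  simp only [rev, lp_b, h]

private theorem tip_lrot (x : V) (k : Fin 6) : tip (lrot (x, k)) = x + dir (k + 1) := by
  simp only [lrot, tip, lp_a]

private theorem tip_lrot2 (x : V) (k : Fin 6) : tip (lrot (lrot (x, k))) = x := by
  rw [lrot2]
  simp only [tip, lp_b]

/-- the orbit -/
private def Gam (c : V → ι) (d₀ : V × Fin 6) : Set (V × Fin 6) := {d | ∃ m, (next c)^[m] d₀ = d}

private theorem gam_class {c : V → ι} {d₀ d : V × Fin 6} (hd : d ∈ Gam c d₀) : c d.1 = c d₀.1 := by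
  obtain ⟨m, rfl⟩ := hd
  exact edart_class c d₀ m

private theorem gam_cut {c : V → ι} {d₀ d : V × Fin 6} (hcut : IsCut c d₀) (hd : d ∈ Gam c d₀) :
    IsCut c d := by
  obtain ⟨m, rfl⟩ := hd
  exact edge_iter_cut hcut m

private theorem gam_tip {c : V → ι} {d₀ d : V × Fin 6} (hcut : IsCut c d₀)
    (hloop : ∀ m, ¬ IsCorner c ((next c)^[m] d₀)) (hd : d ∈ Gam c d₀) :
    c (tip d) = c (tip d₀) := by
  obtain ⟨m, rfl⟩ := hd
  induction m with
  | zero => rfl
  | succ m ih =>
    rw [Function.iterate_succ_apply', class_tip_next c (edge_iter_cut hcut m) (hloop m), ih]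

private theorem gam_next {c : V → ι} {d₀ d : V × Fin 6} (hd : d ∈ Gam c d₀) :
    next c d ∈ Gam c d₀ := by
  obtain ⟨m, rfl⟩ := hd
  exact ⟨m + 1, Function.iterate_succ_apply' _ _ _⟩

private theorem gam_prev {c : V → ι} {o : ι} {n : ℕ} (h : OutBox c o n) {d₀ d : V × Fin 6}
    (hcut : IsCut c d₀) (hd : d ∈ Gam c d₀) : prev c d ∈ Gam c d₀ := by
  have key : ∀ m, prev c ((next c)^[m + 1] d₀) ∈ Gam c d₀ := fun m => by
    rw [Function.iterate_succ_apply', prev_next c (edge_iter_cut hcut m)]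
    exact ⟨m, rfl⟩
  obtain ⟨m, rfl⟩ := hd
  cases m with
  | zero =>
    obtain ⟨p, hp, hper⟩ := edge_period h hcut
    obtain ⟨q, rfl⟩ := Nat.exists_eq_add_of_le' hp
    have := key q
    rw [hper] at this
    exact this
  | succ m => exact key m

private theorem gam_not_both {c : V → ι} {d₀ d : V × Fin 6} (hcut : IsCut c d₀)
    (hloop : ∀ m, ¬ IsCorner c ((next c)^[m] d₀)) (hd : d ∈ Gam c d₀) :
    rev d ∉ Gam c d₀ := by
  intro hr
  have h1 : c (tip d) = c d₀.1 := gam_class hr
  have h2 := gam_tip hcut hloop hd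
  exact hcut (h1.symm.trans h2)

theorem loop_potential {c : V → ι} {o : ι} {n : ℕ} (h : OutBox c o n) {d₀ : V × Fin 6}
    (hcut : IsCut c d₀) (hloop : ∀ m, ¬ IsCorner c ((next c)^[m] d₀)) :
    ∃ f : V → ℤ, f (tip d₀) = f d₀.1 + 1 ∧
      ∀ d : V × Fin 6, f (tip d) = f d.1 ∨
        (f (tip d) = f d.1 + 1 ∧ c d.1 = c d₀.1 ∧ c (tip d) = c (tip d₀)) ∨
        (f (tip d) = f d.1 - 1 ∧ c d.1 = c (tip d₀) ∧ c (tip d) = c d₀.1) := by
  classical
  set ψ : V × Fin 6 → ℤ := fun d =>
    if d ∈ Gam c d₀ then 1 else if rev d ∈ Gam c d₀ then -1 else 0 with hψ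
  have ψ1 : ∀ d, d ∈ Gam c d₀ → ψ d = 1 := fun d hd => if_pos hd
  have ψ2 : ∀ d, rev d ∈ Gam c d₀ → ψ d = -1 := fun d hd => by
    have : d ∉ Gam c d₀ := fun h' => gam_not_both hcut hloop h' hd
    simp only [hψ, if_neg this, if_pos hd]
  have ψ3 : ∀ d, c d.1 = c (tip d) → ψ d = 0 := fun d hd => by
    have h1 : d ∉ Gam c d₀ := fun h' => gam_cut hcut h' hd
    have h2 : rev d ∉ Gam c d₀ := fun h' => by
      have := gam_cut hcut h'
      rw [isCut_rev] at this
      exact this hd
    simp only [hψ, if_neg h1, if_neg h2]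
  have ψ4 : ∀ d, d ∉ Gam c d₀ → rev d ∉ Gam c d₀ → ψ d = 0 := fun d h1 h2 => by
    simp only [hψ, if_neg h1, if_neg h2]
  have hrev : ∀ d, ψ (rev d) = - ψ d := by
    intro d
    by_cases h1 : d ∈ Gam c d₀
    · rw [ψ1 d h1, ψ2 (rev d) (by rw [rev_rev]; exact h1)]
    · by_cases h2 : rev d ∈ Gam c d₀
      · rw [ψ1 _ h2, ψ2 d h2]; ring
      · rw [ψ4 d h1 h2, ψ4 (rev d) h2 (by rw [rev_rev]; exact h1)]; ring
  have hA : ∀ d, d ∈ Gam c d₀ → ψ d + ψ (lrot d) + ψ (lrot (lrot d)) = 0 := by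
    rintro ⟨x, k⟩ hd
    have hcutd := gam_cut hcut hd
    obtain ⟨m, hm⟩ := id hd
    have hnc : ¬ IsCorner c (x, k) := hm ▸ hloop m
    have hnext := gam_next hd
    by_cases h1 : c (x + dir (k + 1)) = c x
    · have e1 : next c (x, k) = (x + dir (k + 1), k - 1) := if_pos h1
      rw [e1, ← rev_lrot] at hnext
      rw [ψ1 _ hd, ψ2 _ hnext, ψ3 (lrot (lrot (x, k)))
        (by rw [tip_lrot2, lrot2]; exact h1)]
      ring
    · have e1 : next c (x, k) = (x, k + 1) := if_neg h1
      rw [e1, ← rev_lrot2] at hnext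
      have h2 : c (x + dir (k + 1)) = c (x + dir k) := by
        by_contra h2
        exact hnc ⟨hcutd, h1, h2⟩
      rw [ψ1 _ hd, ψ2 _ hnext, ψ3 (lrot (x, k)) (by rw [tip_lrot]; exact h2.symm)]
      ring
  have hcyc : ∀ d, d ∈ Gam c d₀ ∨ lrot d ∈ Gam c d₀ ∨ lrot (lrot d) ∈ Gam c d₀ →
      ψ d + ψ (lrot d) + ψ (lrot (lrot d)) = 0 := by
    intro d hd
    rcases hd with hd | hd | hd
    · exact hA d hd
    · have := hA _ hd
      rw [lrot3] at this
      linarith
    · have := hA _ hd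
      rw [lrot3] at this
      linarith
  have hB : ∀ d, rev d ∈ Gam c d₀ → lrot d ∈ Gam c d₀ ∨ lrot (lrot d) ∈ Gam c d₀ := by
    rintro ⟨x, k⟩ hd
    have hp := gam_prev h hcut hd
    have e0 : k + 3 - 1 = k + 2 := by clear hd hp; revert k; decide
    have e1 : k + 3 + 1 = k + 4 := by clear hd hp; revert k; decide
    unfold prev at hp
    split_ifs at hp with h1
    · right
      rw [lrot2]
      simp only [rev, e0, e1, lp_a] at hp
      exact hp
    · left
      simp only [rev, e0] at hp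
      exact hp
  have hS : ∀ d, ψ d + ψ (lrot d) + ψ (lrot (lrot d)) = 0 := by
    intro d
    by_cases h0 : d ∈ Gam c d₀
    · exact hcyc d (Or.inl h0)
    by_cases h1 : lrot d ∈ Gam c d₀
    · exact hcyc d (Or.inr (Or.inl h1))
    by_cases h2 : lrot (lrot d) ∈ Gam c d₀
    · exact hcyc d (Or.inr (Or.inr h2))
    have r0 : rev d ∉ Gam c d₀ := fun hr => (hB d hr).elim h1 h2
    have r1 : rev (lrot d) ∉ Gam c d₀ := fun hr => by
      rcases hB _ hr with h' | h'
      · exact h2 h'
      · rw [lrot3] at h'; exact h0 h'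
    have r2 : rev (lrot (lrot d)) ∉ Gam c d₀ := fun hr => by
      rcases hB _ hr with h' | h'
      · rw [lrot3] at h'; exact h0 h'
      · rw [lrot3] at h'; exact h1 h'
    rw [ψ4 d h0 r0, ψ4 _ h1 r1, ψ4 _ h2 r2]
    ring
  obtain ⟨f, hf⟩ := exact_cochain (fun x k => ψ (x, k))
    (fun x k => hrev (x, k)) (fun x k => by
      have := hS (x, k)
      rw [lrot2] at this
      exact this)
  have hf' : ∀ d : V × Fin 6, f (tip d) - f d.1 = ψ d := fun d => hf d.1 d.2
  have hmem : d₀ ∈ Gam c d₀ := ⟨0, rfl⟩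
  refine ⟨f, ?_, fun d => ?_⟩
  · have := hf' d₀
    rw [ψ1 _ hmem] at this
    linarith
  · have hfd := hf' d
    by_cases h1 : d ∈ Gam c d₀
    · right; left
      rw [ψ1 _ h1] at hfd
      exact ⟨by linarith, gam_class h1, gam_tip hcut hloop h1⟩
    · by_cases h2 : rev d ∈ Gam c d₀
      · right; right
        rw [ψ2 _ h2] at hfd
        refine ⟨by linarith, ?_, gam_class h2⟩
        have := gam_tip hcut hloop h2
        rwa [tip_rev] at this
      · left
        rw [ψ4 _ h1 h2] at hfd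
        linarith

end Pool.Agent.Helper98.LC
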