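import Pool.Agent.Helper98.LC.B.LoopF

/-!
# LC-B14: the set enclosed by a loop

Let `f` be the potential of `loop_potential`, `i = c d₀.1`, `j = c (tip d₀)`, `i ≠ j`.
* `f` is constant on every class: `Conn c`, and along an `Adj1 c` step the classes of the two ends are equal, so the
  second and third alternative are impossible (`i ≠ j`).  Let `m` be the value on `i`, then `m + 1` is the value on `j`
  (`f (tip d₀) = f d₀.1 + 1`).
* `f x ∈ {m, m + 1}` for all `x`: true at `d₀.1`, and if it is true at `x` it is true at every neighbour (first alternative: equal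
  values; other alternatives: the neighbour is in `i` or `j`).  The grid is connected (from `d₀.1` one reaches every
  vertex by steps `dir 0`, `dir 2`, `dir 3`, `dir 5`).
* Let `v` be the value of `f` on the class `o` (which is everything outside `box n`).  `v = m` or `v = m + 1`.
  `S = {x ∈ box n | f x ≠ v}`, so `x ∈ S ↔ f x ≠ v` for all `x`.
  If `v = m`: `W = j`, `W' = i`; if `v = m + 1`: `W = i`, `W' = j`.  `W ≠ o` since `f ≠ v` on `W`.  A dart from `S` to the
  complement of `S` changes `f` from the other value to `v`, so it is of the second or third kind, from `W` to `W'`.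
* `W` is not empty, and there is a dart from `W` to `W'` (`d₀` or `rev d₀`).
-/

namespace Pool.Agent.Helper98.LC

open Finset

variable {ι : Type} [DecidableEq ι]

private theorem reach (P : V → Prop) (hstep : ∀ x k, P x → P (x + dir k)) (x₀ : V) (h₀ : P x₀)
    (x : V) : P x := by
  have h1 : ∀ (y : V) (a : ℤ), P y → P (y.1 + a, y.2) := by
    intro y a hy
    induction a using Int.induction_on with
    | zero => simpa using hy
    | succ k ih =>
      have := hstep _ 0 ih
      have e : ((y.1 + (k : ℤ), y.2) : V) + dir 0 = (y.1 + ((k : ℤ) + 1), y.2) := by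
        ext
        · simp [dir]; ring
        · simp [dir]
      rwa [e] at this
    | pred k ih =>
      have := hstep _ 3 ih
      have e : ((y.1 + (-(k : ℤ)), y.2) : V) + dir 3 = (y.1 + (-(k : ℤ) - 1), y.2) := by
        ext
        · simp [dir]; ring
        · simp [dir]
      rwa [e] at this
  have h2 : ∀ (y : V) (a : ℤ), P y → P (y.1, y.2 + a) := by
    intro y a hy
    induction a using Int.induction_on with
    | zero => simpa using hy
    | succ k ih =>
      have := hstep _ 2 ih
      have e : ((y.1, y.2 + (k : ℤ)) : V) + dir 2 = (y.1, y.2 + ((k : ℤ) + 1)) := by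
        ext
        · simp [dir]
        · simp [dir]; ring
      rwa [e] at this
    | pred k ih =>
      have := hstep _ 5 ih
      have e : ((y.1, y.2 + (-(k : ℤ))) : V) + dir 5 = (y.1, y.2 + (-(k : ℤ) - 1)) := by
        ext
        · simp [dir]
        · simp [dir]; ring
      rwa [e] at this
  have h3 := h2 _ (x.2 - x₀.2) (h1 x₀ (x.1 - x₀.1) h₀)
  have e : (((x₀.1 + (x.1 - x₀.1), x₀.2) : V).1, ((x₀.1 + (x.1 - x₀.1), x₀.2) : V).2 + (x.2 - x₀.2))
      = x := by
    ext
    · simp
    · simp
  rwa [e] at h3

theorem loop_set {c : V → ι} {o : ι} {n : ℕ} (h : OutBox c o n) (hc : Conn c)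
    (hl : ¬ NoLoop c) :
    ∃ (S : Finset V) (W W' : ι), W ≠ o ∧ W ≠ W' ∧ S ⊆ box n ∧ (∀ x, c x = W → x ∈ S) ∧
      (∀ x k, x ∈ S → x + dir k ∉ S → c x = W ∧ c (x + dir k) = W') ∧
      (∃ d, IsCut c d ∧ c d.1 = W ∧ c (tip d) = W') := by
  classical
  unfold NoLoop at hl
  push Not at hl
  obtain ⟨d₀, hcut, hloop⟩ := hl
  obtain ⟨f, hf0, hf⟩ := loop_potential h hcut hloop
  have hij : c d₀.1 ≠ c (tip d₀) := hcut
  -- `f` is constant on classes
  have hA : ∀ x y, Adj1 c x y → f y = f x := by
    rintro x y ⟨hxy, k, rfl⟩
    have := hf (x, k)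
    simp only [tip] at this hij
    rcases this with h1 | ⟨-, h2, h3⟩ | ⟨-, h2, h3⟩
    · exact h1
    · exact absurd (h2.symm.trans (hxy.trans h3)) hij
    · exact absurd (h3.symm.trans (hxy.symm.trans h2)) hij
  have hA' : ∀ x y, c x = c y → f y = f x := by
    intro x y hxy
    have := hc x y hxy
    induction this with
    | refl => rfl
    | tail _ hstep ih =>
      rename_i b z hxb
      have hb : c x = c b := by
        rw [hxy]; exact hstep.1.symm
      rw [hA _ _ hstep]
      exact ih hb
  -- two values
  have hB : ∀ x, f x = f d₀.1 ∨ f x = f d₀.1 + 1 := by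
    refine reach _ ?_ d₀.1 (Or.inl rfl)
    intro x k hx
    have := hf (x, k)
    rcases this with h1 | ⟨-, h2, h3⟩ | ⟨-, h2, h3⟩
    · simp only [tip] at h1
      rw [h1]; exact hx
    · right
      simp only [tip] at h3
      rw [← hf0]
      exact (hA' _ _ h3.symm)
    · left
      simp only [tip] at h3
      exact (hA' _ _ h3.symm)
  -- the outer value
  set p : V := ((n : ℤ) + 1, 0) with hp
  have hpn : p ∉ box n := by
    simp [box, hp]
  have hpo : c p = o := h p hpn
  have hout : ∀ x, x ∉ box n → f x = f p := by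
    intro x hx
    exact hA' p x (by rw [hpo, h x hx])
  set S : Finset V := (box n).filter fun x => f x ≠ f p with hS
  have hmem : ∀ x, x ∈ S ↔ f x ≠ f p := by
    intro x
    rw [hS, mem_filter]
    constructor
    · exact fun hx => hx.2
    · intro hx
      refine ⟨?_, hx⟩
      by_contra hx'
      exact hx (hout x hx')
  rcases hB p with hv | hv
  · refine ⟨S, c (tip d₀), c d₀.1, ?_, fun e => hij e.symm, filter_subset _ _, ?_, ?_, ?_⟩
    · intro e
      have := hA' p (tip d₀) (by rw [hpo, e])
      rw [hf0, hv] at this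
      omega
    · intro x hx
      rw [hmem, hA' (tip d₀) x hx.symm, hf0, hv]
      omega
    · intro x k hx hxk
      rw [hmem] at hx hxk
      push Not at hxk
      rcases hf (x, k) with h1 | ⟨h1, h2, h3⟩ | ⟨h1, h2, h3⟩
      · simp only [tip] at h1
        exact absurd (h1.symm.trans hxk) hx
      · simp only [tip] at h1
        rcases hB x with h4 | h4 <;> omega
      · exact ⟨h2, h3⟩
    · refine ⟨rev d₀, (isCut_rev c d₀).2 hcut, rfl, ?_⟩
      rw [tip_rev]
  · refine ⟨S, c d₀.1, c (tip d₀), ?_, hij, filter_subset _ _, ?_, ?_, ?_⟩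
    · intro e
      have := hA' p d₀.1 (by rw [hpo, e])
      rw [hv] at this
      omega
    · intro x hx
      rw [hmem, hA' d₀.1 x hx.symm, hv]
      omega
    · intro x k hx hxk
      rw [hmem] at hx hxk
      push Not at hxk
      rcases hf (x, k) with h1 | ⟨h1, h2, h3⟩ | ⟨h1, h2, h3⟩
      · simp only [tip] at h1
        exact absurd (h1.symm.trans hxk) hx
      · exact ⟨h2, h3⟩
      · simp only [tip] at h1
        rcases hB x with h4 | h4 <;> omega
    · exact ⟨d₀, hcut, rfl, rfl⟩

end Pool.Agent.Helper98.LC
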